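import Pool.Agent.Helper33_KK.COB3

/-!
# Squad KK: row COB (one round of the covering)
-/

set_option autoImplicit false
set_option linter.unusedSectionVars false

open Finset

namespace Pool.Agent.KK.H33

open Pool.Agent.KK

variable {V : Type} [Fintype V] [DecidableEq V]

/-- a longest tiling -/
theorem exists_max {q k t : ℕ} {H : Finset (Finset V)} {T : Fin q → Set (List V)} {W : Finset V}
    (hk : 0 < k) (ht : 0 < t) (h0 : ∃ L, Tiling H k T t W L) :
    ∃ L, Tiling H k T t W L ∧ ∀ L', Tiling H k T t W L' → L'.length ≤ L.length := by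
  have hb : ∀ L, Tiling H k T t W L → L.length ≤ Fintype.card V := by
    intro L hL
    obtain ⟨h1, _, h3⟩ := til_iff.1 hL
    have h4 := card_cv h1 h3
    have h5 := card_le_univ (cv L)
    have h6 : 1 * L.length ≤ k * t * L.length := Nat.mul_le_mul_right _ (Nat.mul_pos hk ht)
    omega
  have hne : {m : ℕ | ∃ L, Tiling H k T t W L ∧ L.length = m}.Nonempty := by
    obtain ⟨L, hL⟩ := h0
    exact ⟨L.length, L, hL, rfl⟩
  have hbd : BddAbove {m : ℕ | ∃ L, Tiling H k T t W L ∧ L.length = m} :=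
    ⟨Fintype.card V, by rintro m ⟨L, hL, rfl⟩; exact hb L hL⟩
  obtain ⟨L, hL, hLm⟩ := Nat.sSup_mem hne hbd
  refine ⟨L, hL, fun L' hL' => ?_⟩
  rw [hLm]
  exact le_csSup hbd ⟨L', hL', rfl⟩

/-- in the uncovered set of a longest tiling the tuples of every class are few -/
theorem few_of_max {q k t : ℕ} {ρ : ℝ} {H : Finset (Finset V)} {T : Fin q → Set (List V)}
    {W : Finset V} {L : List (Fin k → Finset V)} (ht : 0 < t)
    (hErd : ∀ E : Set (Fin k → V), ρ * (Fintype.card V : ℝ) ^ k ≤ E.ncard →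
      ∃ A : Fin k → Finset V, (∀ i, (A i).card = t) ∧ (∀ i j, i ≠ j → Disjoint (A i) (A j)) ∧
        ∀ x : Fin k → V, (∀ i, x i ∈ A i) → x ∈ E)
    (hL : Tiling H k T t W L) (hmax : ∀ L', Tiling H k T t W L' → L'.length ≤ L.length)
    (i : Fin q) :
    ({g : Fin k → V | (∀ j, g j ∈ (W ∪ cv L)ᶜ) ∧
      EdgeIn H k (T i) (List.ofFn g)}.ncard : ℝ) ≤ ρ * (Fintype.card V : ℝ) ^ k := by
  classical
  by_contra hcon
  push Not at hcon
  obtain ⟨A, hA1, hA2, hA3⟩ := hErd _ hcon.le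
  have hAU : ∀ a, ∀ v ∈ A a, v ∈ (W ∪ cv L)ᶜ := by
    intro a v hv
    have hex : ∀ j, ∃ w, w ∈ A j := fun j => by
      have : (A j).Nonempty := by
        rw [← card_pos, hA1 j]
        exact ht
      exact this
    choose w hw using hex
    have h1 := (hA3 (Function.update w a v) (fun j => by
      by_cases hja : j = a
      · subst hja
        rw [Function.update_self]
        exact hv
      · rw [Function.update_of_ne hja]
        exact hw j)).1 a
    rw [Function.update_self] at h1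
    exact h1
  obtain ⟨b1, b2, b3⟩ := til_iff.1 hL
  have hAv : ∀ v ∈ vs A, v ∉ W ∧ v ∉ cv L := by
    intro v hv
    obtain ⟨a, ha⟩ := mem_vs.1 hv
    have h1 := mem_compl.1 (hAU a v ha)
    exact ⟨fun h => h1 (mem_union_left _ h), fun h => h1 (mem_union_right _ h)⟩
  have hnew : Tiling H k T t W (A :: L) := by
    refine til_iff.2 ⟨?_, ?_, ?_⟩
    · intro B hB
      rcases List.mem_cons.1 hB with rfl | hB
      · exact ⟨hA1, hA2, i, fun x hx => (hA3 x hx).2⟩
      · exact b1 B hB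
    · show Disjoint (vs A ∪ cv L) W
      rw [disjoint_union_left]
      exact ⟨disjoint_left.2 fun v hv hw => (hAv v hv).1 hw, b2⟩
    · refine List.pairwise_cons.2 ⟨fun B hB => ?_, b3⟩
      exact disjoint_left.2 fun v hv hw => (hAv v hv).2 (mem_cv.2 ⟨B, hB, hw⟩)
  have := hmax _ hnew
  rw [List.length_cons] at this
  omega

/-- the final state gives the new tiling -/
theorem finish {q k t s ℓ b m : ℕ} {H : Finset (Finset V)} {T : Fin q → Set (List V)}
    {W U : Finset V} (ht : t = ℓ * s) (hst : Sta3 H k T W U t s ℓ b m) :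
    ∃ L, Tiling H k T s W L ∧ L.length = ℓ * b + m := by
  obtain ⟨P, C, h1, h2, h3', h4, h5, h6, h7, h8, h9, h10, h11⟩ := hst
  obtain ⟨L, g1, g2, g3, g4⟩ := cutAll ht P h2 h5
  refine ⟨L ++ C, til_iff.2 ⟨?_, ?_, ?_⟩, ?_⟩
  · intro E hE
    rcases List.mem_append.1 hE with h | h
    · exact g2 E h
    · exact h6 E h
  · rw [cv_append, disjoint_union_left]
    exact ⟨disjoint_of_subset_left g3 h3', h7⟩
  · refine List.pairwise_append.2 ⟨g4, h8, fun D hD E hE => ?_⟩
    refine disjoint_left.2 fun v hv hw => ?_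
    exact disjoint_left.1 h9 (g3 (mem_cv.2 ⟨D, hD, hv⟩)) (mem_cv.2 ⟨E, hE, hw⟩)
  · rw [List.length_append, g1, h10, ← h1]
    ring

/-- **COB** (one round of the covering) -/
theorem cob (hCoa : CoaStmt) (hErd : ErdStmt) : CobStmt := by
  intro k q ξ hk hq hξ
  obtain ⟨r, rfl⟩ : ∃ r, k = r + 1 := ⟨k - 1, by omega⟩
  have hk' : (3 : ℝ) ≤ ((r + 1 : ℕ) : ℝ) := by exact_mod_cast hk
  have hk0 : (0 : ℝ) < ((r + 1 : ℕ) : ℝ) := by linarith
  have hq' : (0 : ℝ) < q := by exact_mod_cast hq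
  have hfac : 0 < (r + 1).factorial := Nat.factorial_pos _
  have hfac' : (0 : ℝ) < ((r + 1).factorial : ℝ) := by exact_mod_cast hfac
  obtain ⟨ℓ, hℓdef⟩ : ∃ ℓ : ℕ, ℓ = 10 * (r + 1) * q * (r + 1).factorial := ⟨_, rfl⟩
  have hℓ : 0 < ℓ := by rw [hℓdef]; positivity
  have hℓ' : (0 : ℝ) < ℓ := by exact_mod_cast hℓ
  have hℓ1 : (1 : ℝ) ≤ ℓ := by exact_mod_cast hℓ
  set κ : ℝ := min (1 / (100 * ((r + 1 : ℕ) : ℝ))) (ξ / (16 * ((r + 1 : ℕ) : ℝ))) with hκ
  have hκ0 : 0 < κ := by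
    rw [hκ]
    exact lt_min (by positivity) (by positivity)
  have hκ1 : κ * ((r + 1 : ℕ) : ℝ) ≤ 1 / 100 := by
    have : κ ≤ 1 / (100 * ((r + 1 : ℕ) : ℝ)) := min_le_left _ _
    calc κ * ((r + 1 : ℕ) : ℝ) ≤ 1 / (100 * ((r + 1 : ℕ) : ℝ)) * ((r + 1 : ℕ) : ℝ) :=
          mul_le_mul_of_nonneg_right this hk0.le
      _ = 1 / 100 := by field_simp
  have hκ2 : κ * ((r + 1 : ℕ) : ℝ) ≤ ξ / 16 := by
    have : κ ≤ ξ / (16 * ((r + 1 : ℕ) : ℝ)) := min_le_right _ _
    calc κ * ((r + 1 : ℕ) : ℝ) ≤ ξ / (16 * ((r + 1 : ℕ) : ℝ)) * ((r + 1 : ℕ) : ℝ) :=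
          mul_le_mul_of_nonneg_right this hk0.le
      _ = ξ / 16 := by field_simp
  set γ : ℝ := min (1 / 400) (1 / 4 * (ξ / 2) ^ r) with hγ
  have hγ0 : 0 < γ := lt_min (by norm_num) (by positivity)
  refine ⟨ℓ, ((r + 1 : ℕ) : ℝ) * κ / ℓ, γ, hℓ, by positivity, hγ0, ?_⟩
  intro s hs
  have hs' : (0 : ℝ) < s := by exact_mod_cast hs
  obtain ⟨t, ht⟩ : ∃ t : ℕ, t = ℓ * s := ⟨_, rfl⟩
  have ht0 : 0 < t := by rw [ht]; exact Nat.mul_pos hℓ hs
  have ht' : (0 : ℝ) < t := by exact_mod_cast ht0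
  have htr : (t : ℝ) = ℓ * s := by rw [ht]; push_cast; ring
  set ρ : ℝ := 1 / 1600 * (ξ / 2) ^ r / (q * ((r + 1).factorial : ℝ)) with hρ
  have hρ0 : 0 < ρ := by positivity
  obtain ⟨n₁, hn₁⟩ := hErd (r + 1) t ρ (by omega) ht0 hρ0
  obtain ⟨n₂, hn₂⟩ := hCoa (r + 1) q t s (1 / (10 * ((r + 1 : ℕ) : ℝ))) (1 / 20 * (ξ / 2) ^ r)
    (by omega) hq hs (by positivity) (by
      rw [htr, hℓdef]
      push_cast
      have : ((r : ℝ) + 1) ≠ 0 := by positivity
      apply le_of_eq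
      field_simp)
  obtain ⟨n₃, hn₃⟩ := exists_nat_ge (100 * ((r + 1 : ℕ) : ℝ) * t + 16 * ((r + 1 : ℕ) : ℝ) * s / ξ + 1)
  refine ⟨max n₁ (max n₂ n₃), ?_⟩
  intro V _ _ H T hn hUni hTup h3 W hW x hx hall
  have hnn1 : n₁ ≤ Fintype.card V := (le_max_left _ _).trans hn
  have hnn2 : n₂ ≤ Fintype.card V := ((le_max_left _ _).trans (le_max_right _ _)).trans hn
  have hnn3 : n₃ ≤ Fintype.card V := ((le_max_right _ _).trans (le_max_right _ _)).trans hn
  have hN : 100 * ((r + 1 : ℕ) : ℝ) * t + 16 * ((r + 1 : ℕ) : ℝ) * s / ξ + 1 ≤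
      (Fintype.card V : ℝ) := hn₃.trans (by exact_mod_cast hnn3)
  have hN1 : 100 * ((r + 1 : ℕ) : ℝ) * t ≤ (Fintype.card V : ℝ) := by
    have : 0 < 16 * ((r + 1 : ℕ) : ℝ) * s / ξ := by positivity
    linarith
  have hN2 : 16 * ((r + 1 : ℕ) : ℝ) * s ≤ ξ * (Fintype.card V : ℝ) := by
    have h1 : 16 * ((r + 1 : ℕ) : ℝ) * s / ξ ≤ (Fintype.card V : ℝ) := by
      have : 0 < 100 * ((r + 1 : ℕ) : ℝ) * t := by positivity
      linarith
    rw [div_le_iff₀ hξ] at h1
    linarith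
  have hN0 : (0 : ℝ) < Fintype.card V := by
    have h1 : 0 < 16 * ((r + 1 : ℕ) : ℝ) * s / ξ := by positivity
    have h2 : 0 < 100 * ((r + 1 : ℕ) : ℝ) * t := by positivity
    linarith
  have hn0 : 0 < Fintype.card V := by exact_mod_cast hN0
  -- the longest tiling
  obtain ⟨L₀, hL₀, hxL₀⟩ := hx
  rw [← ht] at hL₀
  obtain ⟨L, hL, hmax⟩ := exists_max (by omega : 0 < r + 1) ht0 ⟨L₀, hL₀⟩
  have hlen := hmax _ hL₀
  obtain ⟨b1, b2, b3⟩ := til_iff.1 hL
  have hcL := card_cv b1 b3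
  have hall' := hall L (by rw [← ht]; exact hL)
  have hWU : Disjoint W (W ∪ cv L)ᶜ :=
    disjoint_left.2 fun v hv hw => mem_compl.1 hw (mem_union_left _ hv)
  have hLU : Disjoint (cv L) (W ∪ cv L)ᶜ :=
    disjoint_left.2 fun v hv hw => mem_compl.1 hw (mem_union_right _ hv)
  have hcard : ((W ∪ cv L)ᶜ).card + W.card + (r + 1) * t * L.length = Fintype.card V := by
    have h1 := card_union_of_disjoint b2.symm
    have h2 := card_compl_add_card (W ∪ cv L)
    omega
  have hUc : ξ * Fintype.card V ≤ (((W ∪ cv L)ᶜ).card : ℝ) := by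
    have h1 : (((W ∪ cv L)ᶜ).card : ℝ) + W.card + ((r + 1 : ℕ) : ℝ) * t * L.length =
        Fintype.card V := by exact_mod_cast hcard
    rw [htr] at h1
    linarith
  have hfew := few_of_max (ρ := ρ) ht0
    (fun E hE => hn₁ V hnn1 E hE) hL hmax
  have hp := pairs_few (H := H) (T := T) ((W ∪ cv L)ᶜ) (ρ * (Fintype.card V : ℝ) ^ (r + 1)) hfew
  have hp' : ({g : Fin (r + 1) → V | (∀ j, g j ∈ (W ∪ cv L)ᶜ) ∧
      OrdIn H (r + 1) T (univ.image g)}.ncard : ℝ) ≤
      1 / 1600 * (ξ / 2) ^ r * (Fintype.card V : ℝ) ^ (r + 1) := by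
    refine hp.trans (le_of_eq ?_)
    rw [hρ]
    field_simp
  -- the number of rounds
  obtain ⟨m, hm⟩ : ∃ m : ℕ, m = ⌈κ * Fintype.card V / t⌉₊ := ⟨_, rfl⟩
  have hm1 : κ * Fintype.card V / t ≤ m := by rw [hm]; exact Nat.le_ceil _
  have hm2 : (m : ℝ) ≤ κ * Fintype.card V / t + 1 := by
    rw [hm]
    exact (Nat.ceil_lt_add_one (by positivity)).le
  have hm3 : (m : ℝ) * t ≤ κ * Fintype.card V + t := by
    have := mul_le_mul_of_nonneg_right hm2 ht'.le
    have h2 : (κ * Fintype.card V / t + 1) * t = κ * Fintype.card V + t := by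
      field_simp
    linarith
  have hst : ∀ j ≤ m, Sta3 H (r + 1) T W ((W ∪ cv L)ᶜ) t s ℓ L.length j := by
    intro j
    induction j with
    | zero =>
      intro _
      refine ⟨L, [], by simp, b1, b2, hLU, b3, by simp, by simp [cv], List.Pairwise.nil,
        by simp [cv], by simp, by simp [cv]⟩
    | succ j ih =>
      intro hj
      have hjm : (j : ℝ) ≤ m := by exact_mod_cast (by omega : j ≤ m)
      have hjt : (j : ℝ) * t ≤ κ * Fintype.card V + t :=
        (mul_le_mul_of_nonneg_right hjm ht'.le).trans hm3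
      refine round (q := q) (γ := γ) (ξ := ξ) hk hξ hn0 ht hℓ hs hWU hcard hW hUc h3
        (min_le_right _ _) (min_le_left _ _) hp' ?_ ?_ ?_ (ih (by omega))
      · calc ((r + 1 : ℕ) : ℝ) * t * j = ((r + 1 : ℕ) : ℝ) * (j * t) := by ring
          _ ≤ ((r + 1 : ℕ) : ℝ) * (κ * Fintype.card V + t) :=
            mul_le_mul_of_nonneg_left hjt hk0.le
          _ = κ * ((r + 1 : ℕ) : ℝ) * Fintype.card V + ((r + 1 : ℕ) : ℝ) * t := by ring
          _ ≤ 1 / 100 * Fintype.card V + 1 / 100 * Fintype.card V := by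
            have h1 := mul_le_mul_of_nonneg_right hκ1 hN0.le
            linarith
          _ = 1 / 50 * Fintype.card V := by ring
      · have hst1 : (s : ℝ) ≤ t := by
          rw [htr]
          nlinarith
        have h1 : (s : ℝ) * j ≤ κ * Fintype.card V + s := by
          have e1 : (s : ℝ) * j ≤ s * (κ * Fintype.card V / t + 1) :=
            mul_le_mul_of_nonneg_left (hjm.trans hm2) hs'.le
          have e2 : (s : ℝ) * (κ * Fintype.card V / t) ≤ κ * Fintype.card V := by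
            have e3 : (s : ℝ) * (κ * Fintype.card V / t) = κ * Fintype.card V * (s / t) := by
              field_simp
            have e4 : (s : ℝ) / t ≤ 1 := by
              rw [div_le_one ht']
              exact hst1
            rw [e3]
            exact mul_le_of_le_one_right (by positivity) e4
          linarith
        have h2 : (r : ℝ) ≤ ((r + 1 : ℕ) : ℝ) := by push_cast; linarith
        have h3 : 0 ≤ κ * Fintype.card V + s := by positivity
        calc (2 * r * s * j : ℝ) = 2 * (r * (s * j)) := by ring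
          _ ≤ 2 * (r * (κ * Fintype.card V + s)) := by
            have := mul_le_mul_of_nonneg_left h1 (Nat.cast_nonneg r : (0 : ℝ) ≤ r)
            linarith
          _ ≤ 2 * (((r + 1 : ℕ) : ℝ) * (κ * Fintype.card V + s)) := by
            have := mul_le_mul_of_nonneg_right h2 h3
            linarith
          _ = 2 * (κ * ((r + 1 : ℕ) : ℝ) * Fintype.card V) + 2 * ((r + 1 : ℕ) : ℝ) * s := by ring
          _ ≤ ξ / 2 * Fintype.card V := by
            have e1 := mul_le_mul_of_nonneg_right hκ2 hN0.le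
            have e2 : 0 < ξ * (Fintype.card V : ℝ) := by positivity
            linarith
      · intro B U' g1 g2 g3 g4
        exact hn₂ V H T hnn2 hUni hTup B U' g1 g2 g3 g4
  obtain ⟨M, hM, hMl⟩ := finish ht (hst m le_rfl)
  refine ⟨M, hM, ?_⟩
  rw [hMl]
  push_cast
  have e1 : x * Fintype.card V ≤ ((r + 1 : ℕ) : ℝ) * (ℓ * s) * L.length := by
    refine hxL₀.trans ?_
    have : (L₀.length : ℝ) ≤ L.length := by exact_mod_cast hlen
    exact mul_le_mul_of_nonneg_left this (by positivity)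
  have e2 : ((r + 1 : ℕ) : ℝ) * κ / ℓ * Fintype.card V ≤ ((r + 1 : ℕ) : ℝ) * s * m := by
    calc ((r + 1 : ℕ) : ℝ) * κ / ℓ * Fintype.card V
        = ((r + 1 : ℕ) : ℝ) * s * (κ * Fintype.card V / t) := by
          rw [htr]
          field_simp
      _ ≤ ((r + 1 : ℕ) : ℝ) * s * m := mul_le_mul_of_nonneg_left hm1 (by positivity)
  push_cast at e1 e2
  calc (x + ((r : ℝ) + 1) * κ / ℓ) * Fintype.card V
      = x * Fintype.card V + ((r : ℝ) + 1) * κ / ℓ * Fintype.card V := by ring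
    _ ≤ ((r : ℝ) + 1) * (ℓ * s) * L.length + ((r : ℝ) + 1) * s * m := add_le_add e1 e2
    _ = ((r : ℝ) + 1) * s * (ℓ * L.length + m) := by ring

end Pool.Agent.KK.H33
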