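import Pool.Agent.KK.StmtsC

/-!
# Squad KK: row COB, part 1: blocks, cutting blocks, the averaging argument
-/

set_option autoImplicit false
set_option linter.unusedSectionVars false

open Finset

namespace Pool.Agent.KK.H33

open Pool.Agent.KK

variable {V : Type} [Fintype V] [DecidableEq V]

/-- vertices of a block -/
def vs {k : ℕ} (B : Fin k → Finset V) : Finset V := univ.biUnion B

/-- vertices of a list of blocks -/
def cv {k : ℕ} : List (Fin k → Finset V) → Finset V
  | [] => ∅
  | B :: L => vs B ∪ cv L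

/-- pairwise disjoint blocks -/
def Pw {k : ℕ} (L : List (Fin k → Finset V)) : Prop :=
  L.Pairwise fun B C => Disjoint (vs B) (vs C)

theorem mem_vs {k : ℕ} {B : Fin k → Finset V} {v : V} : v ∈ vs B ↔ ∃ j, v ∈ B j := by
  unfold vs
  simp

theorem mem_cv {k : ℕ} {L : List (Fin k → Finset V)} {v : V} :
    v ∈ cv L ↔ ∃ B ∈ L, v ∈ vs B := by
  induction L with
  | nil => simp [cv]
  | cons B L ih =>
    unfold cv
    rw [mem_union, ih]
    simp

theorem cv_append {k : ℕ} (L M : List (Fin k → Finset V)) : cv (L ++ M) = cv L ∪ cv M := by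
  ext v
  rw [mem_union, mem_cv, mem_cv, mem_cv]
  constructor
  · rintro ⟨B, hB, hv⟩
    rcases List.mem_append.1 hB with h | h
    · exact Or.inl ⟨B, h, hv⟩
    · exact Or.inr ⟨B, h, hv⟩
  · rintro (⟨B, hB, hv⟩ | ⟨B, hB, hv⟩)
    · exact ⟨B, List.mem_append_left _ hB, hv⟩
    · exact ⟨B, List.mem_append_right _ hB, hv⟩

theorem disj_vs {k : ℕ} {B C : Fin k → Finset V} :
    Disjoint (vs B) (vs C) ↔ ∀ i j, Disjoint (B i) (C j) := by
  constructor
  · intro h i j
    exact disjoint_left.2 fun v hv hw =>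
      disjoint_left.1 h (mem_vs.2 ⟨i, hv⟩) (mem_vs.2 ⟨j, hw⟩)
  · intro h
    refine disjoint_left.2 fun v hv hw => ?_
    obtain ⟨i, hi⟩ := mem_vs.1 hv
    obtain ⟨j, hj⟩ := mem_vs.1 hw
    exact disjoint_left.1 (h i j) hi hj

theorem disj_vs_right {k : ℕ} {B : Fin k → Finset V} {W : Finset V} :
    Disjoint (vs B) W ↔ ∀ j, Disjoint (B j) W := by
  constructor
  · intro h i
    exact disjoint_left.2 fun v hv hw => disjoint_left.1 h (mem_vs.2 ⟨i, hv⟩) hw
  · intro h
    refine disjoint_left.2 fun v hv hw => ?_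
    obtain ⟨i, hi⟩ := mem_vs.1 hv
    exact disjoint_left.1 (h i) hi hw

theorem disj_cv {k : ℕ} {L : List (Fin k → Finset V)} {W : Finset V} :
    Disjoint (cv L) W ↔ ∀ B ∈ L, Disjoint (vs B) W := by
  constructor
  · intro h B hB
    exact disjoint_left.2 fun v hv hw => disjoint_left.1 h (mem_cv.2 ⟨B, hB, hv⟩) hw
  · intro h
    refine disjoint_left.2 fun v hv hw => ?_
    obtain ⟨B, hB, hi⟩ := mem_cv.1 hv
    exact disjoint_left.1 (h B hB) hi hw

theorem til_iff {q k s : ℕ} {H : Finset (Finset V)} {T : Fin q → Set (List V)} {W : Finset V}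
    {L : List (Fin k → Finset V)} :
    Tiling H k T s W L ↔ (∀ B ∈ L, Block H k T s B) ∧ Disjoint (cv L) W ∧ Pw L := by
  unfold Tiling Pw
  rw [disj_cv]
  constructor
  · rintro ⟨h1, h2, h3⟩
    exact ⟨h1, fun B hB => disj_vs_right.2 (h2 B hB), h3.imp fun h => disj_vs.2 h⟩
  · rintro ⟨h1, h2, h3⟩
    exact ⟨h1, fun B hB => disj_vs_right.1 (h2 B hB), h3.imp fun h => disj_vs.1 h⟩

theorem card_vs {q k s : ℕ} {H : Finset (Finset V)} {T : Fin q → Set (List V)}
    {B : Fin k → Finset V} (h : Block H k T s B) : (vs B).card = k * s := by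
  unfold vs
  rw [card_biUnion]
  · rw [sum_congr rfl fun j _ => h.1 j]
    simp
  · intro i _ j _ hij
    exact h.2.1 i j hij

theorem card_cv {q k s : ℕ} {H : Finset (Finset V)} {T : Fin q → Set (List V)}
    {L : List (Fin k → Finset V)} (h : ∀ B ∈ L, Block H k T s B) (hp : Pw L) :
    (cv L).card = k * s * L.length := by
  induction L with
  | nil => simp [cv]
  | cons B L ih =>
    have h1 := List.pairwise_cons.1 hp
    have h2 : Disjoint (vs B) (cv L) := by
      rw [disjoint_comm, disj_cv]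
      exact fun C hC => (h1.1 C hC).symm
    show (vs B ∪ cv L).card = _
    rw [card_union_of_disjoint h2, card_vs (h B List.mem_cons_self),
      ih (fun C hC => h C (List.mem_cons_of_mem _ hC)) h1.2, List.length_cons]
    ring

theorem Block.sub {q k s t : ℕ} {H : Finset (Finset V)} {T : Fin q → Set (List V)}
    {B C : Fin k → Finset V} (h : Block H k T t B) (hC : ∀ j, C j ⊆ B j)
    (hs : ∀ j, (C j).card = s) : Block H k T s C := by
  obtain ⟨_, h2, i, h3⟩ := h
  refine ⟨hs, fun a b hab => ?_, i, fun x hx => h3 x fun j => hC j (hx j)⟩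
  exact disjoint_of_subset_left (hC a) (disjoint_of_subset_right (hC b) (h2 a b hab))

/-- cut `m` blocks of size `s` out of a part of a block -/
theorem cut {q k s t : ℕ} {H : Finset (Finset V)} {T : Fin q → Set (List V)}
    {B : Fin k → Finset V} (hB : Block H k T t B) : ∀ (m : ℕ) (D : Fin k → Finset V),
    (∀ a, D a ⊆ B a) → (∀ a, m * s ≤ (D a).card) →
    ∃ L : List (Fin k → Finset V), L.length = m ∧ (∀ C ∈ L, Block H k T s C) ∧
      (∀ C ∈ L, vs C ⊆ vs D) ∧ Pw L := by
  intro m
  induction m with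
  | zero =>
    intro D _ _
    exact ⟨[], rfl, by simp, by simp, List.Pairwise.nil⟩
  | succ m ih =>
    intro D hD hc
    have hex : ∀ a, ∃ C, C ⊆ D a ∧ C.card = s := fun a =>
      exists_subset_card_eq (by have := hc a; rw [Nat.succ_mul] at this; omega)
    choose C hC1 hC2 using hex
    obtain ⟨L, hL1, hL2, hL3, hL4⟩ := ih (fun a => D a \ C a)
      (fun a => sdiff_subset.trans (hD a)) (fun a => by
        have h1 := hc a
        rw [Nat.succ_mul] at h1
        rw [card_sdiff_of_subset (hC1 a), hC2 a]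
        omega)
    have hsub : vs (fun a => D a \ C a) ⊆ vs D := by
      intro v hv
      obtain ⟨a, ha⟩ := mem_vs.1 hv
      exact mem_vs.2 ⟨a, (mem_sdiff.1 ha).1⟩
    refine ⟨C :: L, by rw [List.length_cons, hL1], ?_, ?_, ?_⟩
    · intro E hE
      rcases List.mem_cons.1 hE with rfl | hE
      · exact Block.sub hB (fun a => (hC1 a).trans (hD a)) hC2
      · exact hL2 E hE
    · intro E hE
      rcases List.mem_cons.1 hE with rfl | hE
      · intro v hv
        obtain ⟨a, ha⟩ := mem_vs.1 hv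
        exact mem_vs.2 ⟨a, hC1 a ha⟩
      · exact (hL3 E hE).trans hsub
    · refine List.pairwise_cons.2 ⟨fun E hE => ?_, hL4⟩
      refine disjoint_left.2 fun v hv hw => ?_
      obtain ⟨a, ha⟩ := mem_vs.1 hv
      obtain ⟨b, hb⟩ := mem_vs.1 (hL3 E hE hw)
      have hb' := mem_sdiff.1 hb
      by_cases hab : a = b
      · subst hab
        exact hb'.2 ha
      · exact disjoint_left.1 (hB.2.1 a b hab) (hD a (hC1 a ha)) (hD b hb'.1)

/-- cut all blocks of a tiling into `m` blocks -/
theorem cutAll {q k s t m : ℕ} {H : Finset (Finset V)} {T : Fin q → Set (List V)}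
    (ht : t = m * s) : ∀ P : List (Fin k → Finset V), (∀ B ∈ P, Block H k T t B) → Pw P →
    ∃ L : List (Fin k → Finset V), L.length = m * P.length ∧ (∀ C ∈ L, Block H k T s C) ∧
      cv L ⊆ cv P ∧ Pw L := by
  intro P
  induction P with
  | nil =>
    intro _ _
    exact ⟨[], by simp, by simp, by simp [cv], List.Pairwise.nil⟩
  | cons B P ih =>
    intro hb hp
    have h1 := List.pairwise_cons.1 hp
    obtain ⟨L, hL1, hL2, hL3, hL4⟩ := ih (fun C hC => hb C (List.mem_cons_of_mem _ hC)) h1.2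
    have hB := hb B List.mem_cons_self
    obtain ⟨M, hM1, hM2, hM3, hM4⟩ := cut (s := s) hB m B (fun a => Subset.refl _) (fun a => by
      rw [hB.1 a, ht])
    refine ⟨M ++ L, ?_, ?_, ?_, ?_⟩
    · rw [List.length_append, hM1, hL1, List.length_cons]
      ring
    · intro C hC
      rcases List.mem_append.1 hC with h | h
      · exact hM2 C h
      · exact hL2 C h
    · rw [cv_append]
      refine union_subset ?_ (hL3.trans subset_union_right)
      intro v hv
      obtain ⟨C, hC, hv⟩ := mem_cv.1 hv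
      exact mem_union_left _ (hM3 C hC hv)
    · refine List.pairwise_append.2 ⟨hM4, hL4, fun C hC E hE => ?_⟩
      refine disjoint_left.2 fun v hv hw => ?_
      obtain ⟨A, hA, hvA⟩ := mem_cv.1 (hL3 (mem_cv.2 ⟨E, hE, hw⟩))
      exact disjoint_left.1 (h1.1 A hA) (hM3 C hC hv) hvA

/-- the result of the processing of one block -/
theorem step {q k s ℓ : ℕ} {H : Finset (Finset V)} {T : Fin q → Set (List V)} (hℓ : 0 < ℓ)
    {B : Fin k → Finset V} {U : Finset V} (hB : Block H k T (ℓ * s) B) (hU : Disjoint (vs B) U)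
    (h : ∃ (i j : Fin k) (P P' W W' : Finset V) (C C' : Fin k → Finset V), i ≠ j ∧
          P ⊆ B i ∧ P' ⊆ B j ∧ W ⊆ U ∧ W' ⊆ U ∧ Disjoint W W' ∧ P.card = s ∧ P'.card = s ∧
          W.card = (k - 1) * s ∧ W'.card = (k - 1) * s ∧
          Block H k T s C ∧ Block H k T s C' ∧
          Finset.univ.biUnion C = P ∪ W ∧ Finset.univ.biUnion C' = P' ∪ W') :
    ∃ (L : List (Fin k → Finset V)) (X : Finset V), L.length = ℓ + 1 ∧
      (∀ C ∈ L, Block H k T s C) ∧ Pw L ∧ X ⊆ U ∧ X.card ≤ 2 * (k - 1) * s ∧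
      cv L ⊆ vs B ∪ X := by
  obtain ⟨i, j, P, P', W, W', C, C', hij, hP, hP', hW, hW', hWW, cP, cP', cW, cW', bC, bC',
    eC, eC'⟩ := h
  obtain ⟨M, hM1, hM2, hM3, hM4⟩ := cut (s := s) hB (ℓ - 1)
    (fun a => B a \ (if a = i then P else if a = j then P' else ∅))
    (fun a => sdiff_subset) (fun a => by
      have hl : (ℓ - 1) * s + s = ℓ * s := by
        obtain ⟨m, rfl⟩ : ∃ m, ℓ = m + 1 := ⟨ℓ - 1, by omega⟩
        rw [Nat.add_sub_cancel]
        ring
      have h1 : (if a = i then P else if a = j then P' else ∅).card ≤ s := by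
        split_ifs
        · exact cP.le
        · exact cP'.le
        · simp
      have h2 := le_card_sdiff (if a = i then P else if a = j then P' else ∅) (B a)
      rw [hB.1 a] at h2
      omega)
  have hD : ∀ v, v ∈ vs (fun a => B a \ (if a = i then P else if a = j then P' else ∅)) →
      v ∈ vs B ∧ v ∉ P ∧ v ∉ P' := by
    intro v hv
    obtain ⟨a, ha⟩ := mem_vs.1 hv
    obtain ⟨ha1, ha2⟩ := mem_sdiff.1 ha
    refine ⟨mem_vs.2 ⟨a, ha1⟩, fun hvP => ?_, fun hvP => ?_⟩
    · have hai : a = i := by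
        by_contra hne
        exact disjoint_left.1 (hB.2.1 a i hne) ha1 (hP hvP)
      rw [if_pos hai] at ha2
      exact ha2 hvP
    · have haj : a = j := by
        by_contra hne
        exact disjoint_left.1 (hB.2.1 a j hne) ha1 (hP' hvP)
      have hai : a ≠ i := fun h => hij (h.symm.trans haj)
      rw [if_neg hai, if_pos haj] at ha2
      exact ha2 hvP
  have vC : ∀ v, v ∈ vs C → v ∈ P ∨ v ∈ W := by
    intro v hv
    have : v ∈ P ∪ W := by rw [← eC]; exact hv
    exact mem_union.1 this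
  have vC' : ∀ v, v ∈ vs C' → v ∈ P' ∨ v ∈ W' := by
    intro v hv
    have : v ∈ P' ∪ W' := by rw [← eC']; exact hv
    exact mem_union.1 this
  have PB : ∀ v, v ∈ P → v ∈ vs B := fun v hv => mem_vs.2 ⟨i, hP hv⟩
  have PB' : ∀ v, v ∈ P' → v ∈ vs B := fun v hv => mem_vs.2 ⟨j, hP' hv⟩
  have BU : ∀ v, v ∈ vs B → v ∉ U := fun v hv => disjoint_left.1 hU hv
  refine ⟨C :: C' :: M, W ∪ W', ?_, ?_, ?_, union_subset hW hW', ?_, ?_⟩
  · rw [List.length_cons, List.length_cons, hM1]
    omega
  · intro E hE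
    rcases List.mem_cons.1 hE with rfl | hE
    · exact bC
    rcases List.mem_cons.1 hE with rfl | hE
    · exact bC'
    · exact hM2 E hE
  · refine List.pairwise_cons.2 ⟨fun E hE => ?_, List.pairwise_cons.2 ⟨fun E hE => ?_, hM4⟩⟩
    · rcases List.mem_cons.1 hE with rfl | hE
      · refine disjoint_left.2 fun v hv hw => ?_
        rcases vC v hv with h1 | h1 <;> rcases vC' v hw with h2 | h2
        · exact disjoint_left.1 (hB.2.1 i j hij) (hP h1) (hP' h2)
        · exact BU v (PB v h1) (hW' h2)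
        · exact BU v (PB' v h2) (hW h1)
        · exact disjoint_left.1 hWW h1 h2
      · refine disjoint_left.2 fun v hv hw => ?_
        obtain ⟨g1, g2, _⟩ := hD v (hM3 E hE hw)
        rcases vC v hv with h1 | h1
        · exact g2 h1
        · exact BU v g1 (hW h1)
    · refine disjoint_left.2 fun v hv hw => ?_
      obtain ⟨g1, _, g2⟩ := hD v (hM3 E hE hw)
      rcases vC' v hv with h1 | h1
      · exact g2 h1
      · exact BU v g1 (hW' h1)
  · have := card_union_le W W'
    rw [cW, cW'] at this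
    calc (W ∪ W').card ≤ (k - 1) * s + (k - 1) * s := this
      _ = 2 * (k - 1) * s := by ring
  · intro v hv
    obtain ⟨E, hE, hvE⟩ := mem_cv.1 hv
    rw [mem_union, mem_union]
    rcases List.mem_cons.1 hE with rfl | hE
    · rcases vC v hvE with h1 | h1
      · exact Or.inl (PB v h1)
      · exact Or.inr (Or.inl h1)
    rcases List.mem_cons.1 hE with rfl | hE
    · rcases vC' v hvE with h1 | h1
      · exact Or.inl (PB' v h1)
      · exact Or.inr (Or.inr h1)
    · exact Or.inl (hD v (hM3 E hE hvE)).1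

/-- averaging over a list of blocks -/
theorem avg {k : ℕ} {ι : Type} (F : Finset ι) (g : ι → Finset V) (c : ℝ) :
    ∀ P : List (Fin k → Finset V), (∀ B ∈ P, ∑ f ∈ F, ((g f ∩ vs B).card : ℝ) ≤ c) →
    ∑ f ∈ F, ((g f ∩ cv P).card : ℝ) ≤ c * P.length := by
  intro P
  induction P with
  | nil => intro _; simp [cv]
  | cons B P ih =>
    intro h
    have h1 := ih fun C hC => h C (List.mem_cons_of_mem _ hC)
    have h2 := h B List.mem_cons_self
    have h3 : ∀ f ∈ F, ((g f ∩ cv (B :: P)).card : ℝ) ≤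
        ((g f ∩ vs B).card : ℝ) + ((g f ∩ cv P).card : ℝ) := by
      intro f _
      have : (g f ∩ cv (B :: P)).card ≤ (g f ∩ vs B).card + (g f ∩ cv P).card := by
        show (g f ∩ (vs B ∪ cv P)).card ≤ _
        rw [inter_union_distrib_left]
        exact card_union_le _ _
      exact_mod_cast this
    have h4 := sum_le_sum h3
    rw [sum_add_distrib] at h4
    rw [List.length_cons]
    push_cast
    linarith

/-- some block contains many good neighbours for many tuples -/
theorem choose_block {k t : ℕ} {ι : Type} (F : Finset ι) (g : ι → Finset V) (N : ℝ) (hN : 0 < N)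
    (hF : F.Nonempty) (P : List (Fin k → Finset V)) (hP : ∀ B ∈ P, (vs B).card = k * t)
    (hPN : (k * t * P.length : ℝ) ≤ N)
    (hg : ∀ f ∈ F, 47 / 100 * N ≤ ((g f ∩ cv P).card : ℝ)) :
    ∃ B ∈ P, 1 / 10 * (F.card : ℝ) ≤
      ((F.filter fun f => 4 / 10 * (k * t : ℝ) ≤ ((g f ∩ vs B).card : ℝ)).card : ℝ) := by
  classical
  by_contra hcon
  push Not at hcon
  have hFc : (0 : ℝ) < F.card := by exact_mod_cast hF.card_pos
  have key : ∀ B ∈ P, ∑ f ∈ F, ((g f ∩ vs B).card : ℝ) ≤ 46 / 100 * (k * t : ℝ) * F.card := by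
    intro B hB
    have h1 := hcon B hB
    have h2 : ∀ f ∈ F, ((g f ∩ vs B).card : ℝ) ≤ 4 / 10 * (k * t : ℝ) +
        (if 4 / 10 * (k * t : ℝ) ≤ ((g f ∩ vs B).card : ℝ) then 6 / 10 * (k * t : ℝ) else 0) := by
      intro f _
      split_ifs with hf
      · have : (g f ∩ vs B).card ≤ k * t := by
          rw [← hP B hB]
          exact card_le_card inter_subset_right
        have h3 : ((g f ∩ vs B).card : ℝ) ≤ (k : ℝ) * t := by exact_mod_cast this
        linarith
      · push Not at hf
        linarith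
    have h3 := sum_le_sum h2
    rw [sum_add_distrib, sum_const, ← sum_filter, sum_const, nsmul_eq_mul, nsmul_eq_mul] at h3
    have hkt : (0 : ℝ) ≤ (k : ℝ) * t := by positivity
    nlinarith
  have h1 := avg F g _ P key
  have h2 := card_nsmul_le_sum F (fun f => ((g f ∩ cv P).card : ℝ)) _ hg
  rw [nsmul_eq_mul] at h2
  have h3 : 46 / 100 * ((k : ℝ) * t) * F.card * P.length ≤ 46 / 100 * N * F.card := by
    have := mul_le_mul_of_nonneg_left hPN (le_of_lt hFc)
    nlinarith
  nlinarith [mul_pos hFc hN]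

/-- two parts of the block contain many good neighbours -/
theorem two_parts {k t : ℕ} (hk : 3 ≤ k) (ht : 0 < t) (g : Finset V) (B : Fin k → Finset V)
    (hB : ∀ j, (B j).card = t) (h : 4 / 10 * (k * t : ℝ) ≤ ((g ∩ vs B).card : ℝ)) :
    ∃ i j, i ≠ j ∧ 1 / (10 * k) * (t : ℝ) ≤ ((g ∩ B i).card : ℝ) ∧
      1 / (10 * k) * (t : ℝ) ≤ ((g ∩ B j).card : ℝ) := by
  classical
  by_contra hcon
  push Not at hcon
  have hk' : (3 : ℝ) ≤ k := by exact_mod_cast hk
  have ht' : (0 : ℝ) < t := by exact_mod_cast ht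
  have hη : 1 / (10 * k) * (t : ℝ) * k = t / 10 := by
    field_simp
  have hsum : ((g ∩ vs B).card : ℝ) ≤ ∑ j, ((g ∩ B j).card : ℝ) := by
    have h1 : g ∩ vs B = univ.biUnion fun j => g ∩ B j := by
      unfold vs
      rw [inter_biUnion]
    rw [h1]
    exact_mod_cast card_biUnion_le
  have hη0 : 0 ≤ 1 / (10 * k) * (t : ℝ) := by positivity
  by_cases hi : ∃ i, 1 / (10 * k) * (t : ℝ) ≤ ((g ∩ B i).card : ℝ)
  · obtain ⟨i, hi⟩ := hi
    have h1 : ∀ j ∈ univ, ((g ∩ B j).card : ℝ) ≤ 1 / (10 * k) * (t : ℝ) +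
        (if j = i then (t : ℝ) else 0) := by
      intro j _
      split_ifs with hj
      · have : (g ∩ B j).card ≤ t := by
          rw [← hB j]
          exact card_le_card inter_subset_right
        have h3 : ((g ∩ B j).card : ℝ) ≤ t := by exact_mod_cast this
        linarith
      · have := hcon i j (fun h => hj h.symm) hi
        linarith
    have h2 := sum_le_sum h1
    rw [sum_add_distrib, sum_const, sum_ite_eq' univ i, if_pos (mem_univ i), card_univ,
      Fintype.card_fin, nsmul_eq_mul] at h2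
    nlinarith
  · push Not at hi
    have h1 : ∀ j ∈ univ, ((g ∩ B j).card : ℝ) ≤ 1 / (10 * k) * (t : ℝ) := fun j _ => (hi j).le
    have h2 := sum_le_sum h1
    rw [sum_const, card_univ, Fintype.card_fin, nsmul_eq_mul] at h2
    nlinarith

end Pool.Agent.KK.H33
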