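import Pool.Agent.Helper33_KK.COB1

/-!
# Squad KK: row COB, part 2: counting pairs inside the uncovered set, the set of typical tuples
-/

set_option autoImplicit false
set_option linter.unusedSectionVars false

open Finset

namespace Pool.Agent.KK.H33

open Pool.Agent.KK

variable {V : Type} [Fintype V] [DecidableEq V]

theorem ncard_filter {α : Type} [Fintype α] (p : α → Prop) [DecidablePred p] :
    ({x | p x} : Set α).ncard = (univ.filter p).card := by
  rw [← Set.ncard_coe_finset]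
  congr 1
  ext x
  simp

theorem mem_gn {q k : ℕ} {H : Finset (Finset V)} {T : Fin q → Set (List V)}
    {f : Fin (k - 1) → V} {v : V} :
    v ∈ gn H k T f ↔ OrdIn H k T (insert v (univ.image f)) := by
  unfold gn
  simp

theorem exists_ofFn {r : ℕ} (l : List V) (h : l.length = r) : ∃ g : Fin r → V, l = List.ofFn g := by
  subst h
  exact ⟨l.get, (List.ofFn_get l).symm⟩

theorem toFinset_ofFn {r : ℕ} (g : Fin r → V) : (List.ofFn g).toFinset = univ.image g := by
  ext v
  simp [List.mem_ofFn]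

/-- tuples in `U` with an ordering in a class are few, if in every class they are few -/
theorem pairs_few {r q : ℕ} {H : Finset (Finset V)} {T : Fin q → Set (List V)} (U : Finset V)
    (ρ : ℝ)
    (hρ : ∀ i, ({g : Fin (r + 1) → V | (∀ j, g j ∈ U) ∧
      EdgeIn H (r + 1) (T i) (List.ofFn g)}.ncard : ℝ) ≤ ρ) :
    ({g : Fin (r + 1) → V | (∀ j, g j ∈ U) ∧ OrdIn H (r + 1) T (univ.image g)}.ncard : ℝ) ≤
      q * (r + 1).factorial * ρ := by
  classical
  have hsub : {g : Fin (r + 1) → V | (∀ j, g j ∈ U) ∧ OrdIn H (r + 1) T (univ.image g)} ⊆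
      ⋃ p : Fin q × Equiv.Perm (Fin (r + 1)), {g : Fin (r + 1) → V |
        g ∘ p.2 ∈ {g : Fin (r + 1) → V | (∀ j, g j ∈ U) ∧
          EdgeIn H (r + 1) (T p.1) (List.ofFn g)}} := by
    rintro g ⟨hg, i, l, hl, he⟩
    obtain ⟨h, rfl⟩ := exists_ofFn l he.2.1
    have hinj : Function.Injective h := List.nodup_ofFn.1 he.1
    rw [toFinset_ofFn] at hl
    have hex : ∀ j, ∃ a, g a = h j := by
      intro j
      have : h j ∈ univ.image g := by
        rw [← hl]
        exact mem_image_of_mem _ (mem_univ _)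
      obtain ⟨a, _, ha⟩ := mem_image.1 this
      exact ⟨a, ha⟩
    choose σ hσ using hex
    have hσi : Function.Injective σ := by
      intro a b hab
      apply hinj
      rw [← hσ a, ← hσ b, hab]
    have hbij : Function.Bijective σ := Finite.injective_iff_bijective.1 hσi
    refine Set.mem_iUnion.2 ⟨(i, Equiv.ofBijective σ hbij), ?_⟩
    have hcomp : g ∘ (Equiv.ofBijective σ hbij) = h := by
      funext j
      exact hσ j
    show (∀ j, (g ∘ (Equiv.ofBijective σ hbij)) j ∈ U) ∧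
      EdgeIn H (r + 1) (T i) (List.ofFn (g ∘ (Equiv.ofBijective σ hbij)))
    rw [hcomp]
    refine ⟨fun j => ?_, he⟩
    rw [← hσ j]
    exact hg _
  have h1 : ({g : Fin (r + 1) → V | (∀ j, g j ∈ U) ∧ OrdIn H (r + 1) T (univ.image g)}.ncard) ≤
      ∑ p : Fin q × Equiv.Perm (Fin (r + 1)), ({g : Fin (r + 1) → V |
        g ∘ p.2 ∈ {g : Fin (r + 1) → V | (∀ j, g j ∈ U) ∧
          EdgeIn H (r + 1) (T p.1) (List.ofFn g)}}).ncard :=
    (Set.ncard_le_ncard hsub (Set.toFinite _)).trans (Set.ncard_iUnion_le_of_fintype _)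
  have h2 : ∀ p : Fin q × Equiv.Perm (Fin (r + 1)), ((({g : Fin (r + 1) → V |
        g ∘ p.2 ∈ {g : Fin (r + 1) → V | (∀ j, g j ∈ U) ∧
          EdgeIn H (r + 1) (T p.1) (List.ofFn g)}}).ncard : ℕ) : ℝ) ≤ ρ := by
    intro p
    refine le_trans ?_ (hρ p.1)
    have : ({g : Fin (r + 1) → V |
        g ∘ p.2 ∈ {g : Fin (r + 1) → V | (∀ j, g j ∈ U) ∧
          EdgeIn H (r + 1) (T p.1) (List.ofFn g)}}).ncard ≤
        ({g : Fin (r + 1) → V | (∀ j, g j ∈ U) ∧
          EdgeIn H (r + 1) (T p.1) (List.ofFn g)}).ncard := by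
      refine Set.ncard_le_ncard_of_injOn (fun g => g ∘ p.2) (fun g hg => hg) ?_ (Set.toFinite _)
      intro g _ g' _ hgg
      funext j
      have := congrFun hgg (p.2.symm j)
      simpa using this
    exact_mod_cast this
  calc ({g : Fin (r + 1) → V | (∀ j, g j ∈ U) ∧ OrdIn H (r + 1) T (univ.image g)}.ncard : ℝ)
      ≤ ∑ p : Fin q × Equiv.Perm (Fin (r + 1)), (({g : Fin (r + 1) → V |
        g ∘ p.2 ∈ {g : Fin (r + 1) → V | (∀ j, g j ∈ U) ∧
          EdgeIn H (r + 1) (T p.1) (List.ofFn g)}}).ncard : ℝ) := by exact_mod_cast h1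
    _ ≤ ∑ p : Fin q × Equiv.Perm (Fin (r + 1)), ρ := sum_le_sum fun p _ => h2 p
    _ = q * (r + 1).factorial * ρ := by
        rw [sum_const, card_univ, Fintype.card_prod, Fintype.card_fin, Fintype.card_perm,
          Fintype.card_fin, nsmul_eq_mul]
        push_cast
        ring

/-- pairs (tuple, good neighbour) inside `U` are `(r+1)`-tuples with an ordering in a class -/
theorem sum_pairs {r q : ℕ} {H : Finset (Finset V)} {T : Fin q → Set (List V)} (U : Finset V)
    (F : Finset (Fin (r + 1 - 1) → V)) (hF : ∀ f ∈ F, ∀ l, f l ∈ U) :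
    ∑ f ∈ F, (gn H (r + 1) T f ∩ U).card ≤
      {g : Fin (r + 1) → V | (∀ j, g j ∈ U) ∧ OrdIn H (r + 1) T (univ.image g)}.ncard := by
  classical
  rw [ncard_filter, ← card_sigma]
  have himg : ∀ (f : Fin r → V) (v : V),
      univ.image (Fin.cons v f : Fin (r + 1) → V) = insert v (univ.image f) := by
    intro f v
    ext w
    rw [mem_insert, mem_image, mem_image]
    constructor
    · rintro ⟨j, _, hj⟩
      rcases Fin.eq_zero_or_eq_succ j with rfl | ⟨i, rfl⟩
      · left
        rw [← hj, Fin.cons_zero]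
      · right
        exact ⟨i, mem_univ _, by rw [← hj, Fin.cons_succ]⟩
    · rintro (rfl | ⟨i, _, hi⟩)
      · exact ⟨0, mem_univ _, Fin.cons_zero _ _⟩
      · exact ⟨i.succ, mem_univ _, by rw [Fin.cons_succ]; exact hi⟩
  refine card_le_card_of_injOn
    (fun p : (Σ _ : Fin (r + 1 - 1) → V, V) => (Fin.cons p.2 p.1 : Fin (r + 1) → V)) ?_ ?_
  · rintro ⟨f, v⟩ hp
    have hp' := mem_sigma.1 (mem_coe.1 hp)
    have hv := mem_inter.1 hp'.2
    refine mem_coe.2 ((@mem_filter _ _ _ _ _).2 ⟨mem_univ _, fun j => ?_, ?_⟩)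
    · rcases Fin.eq_zero_or_eq_succ j with rfl | ⟨i, rfl⟩
      · exact hv.2
      · exact hF f hp'.1 i
    · have := mem_gn.1 hv.1
      show OrdIn H (r + 1) T (univ.image (Fin.cons v f : Fin (r + 1) → V))
      rw [himg]
      exact this
  · rintro ⟨f, v⟩ _ ⟨f', v'⟩ _ h
    have h' : (Fin.cons v f : Fin (r + 1) → V) = Fin.cons v' f' := h
    have hc := Fin.cons_inj.1 h'
    obtain ⟨h1, h2⟩ := hc
    subst h1
    subst h2
    rfl

open Classical in
/-- typical tuples: inside `U'`, many good neighbours, few of them in `U` -/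
noncomputable def typ {q : ℕ} (H : Finset (Finset V)) (k : ℕ) (T : Fin q → Set (List V))
    (U U' : Finset V) (γ : ℝ) : Finset (Fin (k - 1) → V) :=
  univ.filter fun f => (∀ l, f l ∈ U') ∧
    (1 / 2 - γ) * Fintype.card V ≤ ((gn H k T f).card : ℝ) ∧
    ((gn H k T f ∩ U).card : ℝ) ≤ 1 / 400 * Fintype.card V

/-- there are many typical tuples -/
theorem typ_card {q r : ℕ} {H : Finset (Finset V)} {T : Fin q → Set (List V)} {U U' : Finset V}
    {γ ξ : ℝ} (hξ : 0 < ξ) (hn : 0 < Fintype.card V) (hU' : U' ⊆ U)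
    (hU : ξ / 2 * Fintype.card V ≤ (U'.card : ℝ)) (h3 : P3 H (r + 1) T γ)
    (hγ : γ ≤ 1 / 4 * (ξ / 2) ^ r)
    (hp : ({g : Fin (r + 1) → V | (∀ j, g j ∈ U) ∧ OrdIn H (r + 1) T (univ.image g)}.ncard : ℝ) ≤
      1 / 1600 * (ξ / 2) ^ r * (Fintype.card V : ℝ) ^ (r + 1)) :
    1 / 2 * (ξ / 2) ^ r * (Fintype.card V : ℝ) ^ r ≤ ((typ H (r + 1) T U U' γ).card : ℝ) := by
  classical
  have hn' : (0 : ℝ) < Fintype.card V := by exact_mod_cast hn
  have hnr : (0 : ℝ) < (Fintype.card V : ℝ) ^ r := by positivity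
  set A : Finset (Fin (r + 1 - 1) → V) := univ.filter fun f => ∀ l, f l ∈ U' with hA
  set B1 : Finset (Fin (r + 1 - 1) → V) := univ.filter fun f =>
    ((gn H (r + 1) T f).card : ℝ) < (1 / 2 - γ) * Fintype.card V with hB1
  set B2 : Finset (Fin (r + 1 - 1) → V) := univ.filter fun f => (∀ l, f l ∈ U) ∧
    1 / 400 * (Fintype.card V : ℝ) < ((gn H (r + 1) T f ∩ U).card : ℝ) with hB2
  have hAc : (A.card : ℝ) = (U'.card : ℝ) ^ r := by
    have h1 : A = Fintype.piFinset fun _ : Fin (r + 1 - 1) => U' := by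
      ext f
      rw [hA, mem_filter, Fintype.mem_piFinset]
      simp
    rw [h1, Fintype.card_piFinset, prod_const, card_univ, Fintype.card_fin]
    push_cast
    rfl
  have hA2 : (ξ / 2) ^ r * (Fintype.card V : ℝ) ^ r ≤ A.card := by
    rw [hAc, ← mul_pow]
    exact pow_le_pow_left₀ (by positivity) hU r
  have hB1c : (B1.card : ℝ) ≤ γ * (Fintype.card V : ℝ) ^ r := by
    have h1 := h3
    unfold P3 at h1
    rw [ncard_filter] at h1
    exact h1
  have hB2c : (B2.card : ℝ) ≤ 1 / 4 * (ξ / 2) ^ r * (Fintype.card V : ℝ) ^ r := by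
    have h1 := sum_pairs (H := H) (T := T) U B2 (fun f hf => (mem_filter.1 hf).2.1)
    have h2 : (B2.card : ℝ) * (1 / 400 * (Fintype.card V : ℝ)) ≤
        ∑ f ∈ B2, ((gn H (r + 1) T f ∩ U).card : ℝ) := by
      have := card_nsmul_le_sum B2 (fun f => ((gn H (r + 1) T f ∩ U).card : ℝ))
        (1 / 400 * (Fintype.card V : ℝ)) (fun f hf => (mem_filter.1 hf).2.2.le)
      rw [nsmul_eq_mul] at this
      exact this
    have h3 : (∑ f ∈ B2, ((gn H (r + 1) T f ∩ U).card : ℝ)) ≤
        1 / 1600 * (ξ / 2) ^ r * (Fintype.card V : ℝ) ^ (r + 1) := by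
      refine le_trans ?_ hp
      exact_mod_cast h1
    have h4 := h2.trans h3
    rw [pow_succ] at h4
    have h5 : (B2.card : ℝ) * (1 / 400) * (Fintype.card V : ℝ) ≤
        1 / 1600 * (ξ / 2) ^ r * (Fintype.card V : ℝ) ^ r * (Fintype.card V : ℝ) := by
      nlinarith
    have h6 := le_of_mul_le_mul_right h5 hn'
    linarith
  have hsub : A ⊆ typ H (r + 1) T U U' γ ∪ B1 ∪ B2 := by
    intro f hf
    have hfA := (mem_filter.1 hf).2
    by_cases h1 : ((gn H (r + 1) T f).card : ℝ) < (1 / 2 - γ) * Fintype.card V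
    · exact mem_union_left _ (mem_union_right _ (mem_filter.2 ⟨mem_univ _, h1⟩))
    by_cases h2 : 1 / 400 * (Fintype.card V : ℝ) < ((gn H (r + 1) T f ∩ U).card : ℝ)
    · exact mem_union_right _ (mem_filter.2 ⟨mem_univ _, fun l => hU' (hfA l), h2⟩)
    · refine mem_union_left _ (mem_union_left _ ?_)
      unfold typ
      exact mem_filter.2 ⟨mem_univ _, hfA, not_lt.1 h1, not_lt.1 h2⟩
  have hc : (A.card : ℝ) ≤ (typ H (r + 1) T U U' γ).card + B1.card + B2.card := by
    have h1 := card_le_card hsub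
    have h2 := card_union_le (typ H (r + 1) T U U' γ ∪ B1) B2
    have h3 := card_union_le (typ H (r + 1) T U U' γ) B1
    have : A.card ≤ (typ H (r + 1) T U U' γ).card + B1.card + B2.card := by omega
    exact_mod_cast this
  have hγ' : γ * (Fintype.card V : ℝ) ^ r ≤ 1 / 4 * (ξ / 2) ^ r * (Fintype.card V : ℝ) ^ r :=
    mul_le_mul_of_nonneg_right hγ hnr.le
  linarith

end Pool.Agent.KK.H33
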