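import Pool.Agent.Helper33_KK.COB2

/-!
# Squad KK: row COB, part 3: the rounds
-/

set_option autoImplicit false
set_option linter.unusedSectionVars false

open Finset

namespace Pool.Agent.KK.H33

open Pool.Agent.KK

variable {V : Type} [Fintype V] [DecidableEq V]

/-- the state after `j` rounds: unprocessed blocks of size `t`, new blocks of size `s` -/
def Sta3 {q : ℕ} (H : Finset (Finset V)) (k : ℕ) (T : Fin q → Set (List V)) (W U : Finset V)
    (t s ℓ b j : ℕ) : Prop :=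
  ∃ P C : List (Fin k → Finset V), P.length + j = b ∧ (∀ B ∈ P, Block H k T t B) ∧
    Disjoint (cv P) W ∧ Disjoint (cv P) U ∧ Pw P ∧ (∀ B ∈ C, Block H k T s B) ∧
    Disjoint (cv C) W ∧ Pw C ∧ Disjoint (cv P) (cv C) ∧ C.length = (ℓ + 1) * j ∧
    (cv C ∩ U).card ≤ 2 * (k - 1) * s * j

/-- update of the state -/
theorem update {q k t s ℓ b j : ℕ} {H : Finset (Finset V)} {T : Fin q → Set (List V)}
    {W U : Finset V} (hWU : Disjoint W U) (P1 P2 C L : List (Fin k → Finset V))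
    (B : Fin k → Finset V) (X : Finset V)
    (h1 : (P1 ++ B :: P2).length + j = b) (h2 : ∀ B' ∈ P1 ++ B :: P2, Block H k T t B')
    (h3 : Disjoint (cv (P1 ++ B :: P2)) W) (h4 : Disjoint (cv (P1 ++ B :: P2)) U)
    (h5 : Pw (P1 ++ B :: P2)) (h6 : ∀ B' ∈ C, Block H k T s B') (h7 : Disjoint (cv C) W)
    (h8 : Pw C) (h9 : Disjoint (cv (P1 ++ B :: P2)) (cv C)) (h10 : C.length = (ℓ + 1) * j)
    (h11 : (cv C ∩ U).card ≤ 2 * (k - 1) * s * j) (g1 : L.length = ℓ + 1)
    (g2 : ∀ B' ∈ L, Block H k T s B') (g3 : Pw L) (g4 : X ⊆ U \ cv C)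
    (g5 : X.card ≤ 2 * (k - 1) * s) (g6 : cv L ⊆ vs B ∪ X) : Sta3 H k T W U t s ℓ b (j + 1) := by
  have inB : ∀ v, v ∈ vs B → v ∈ cv (P1 ++ B :: P2) := fun v hv =>
    mem_cv.2 ⟨B, by simp, hv⟩
  have inP : ∀ v, v ∈ cv (P1 ++ P2) → v ∈ cv (P1 ++ B :: P2) := by
    intro v hv
    obtain ⟨E, hE, hvE⟩ := mem_cv.1 hv
    refine mem_cv.2 ⟨E, ?_, hvE⟩
    rcases List.mem_append.1 hE with h | h
    · exact List.mem_append_left _ h
    · exact List.mem_append_right _ (List.mem_cons_of_mem _ h)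
  have hsub : (P1 ++ P2).Sublist (P1 ++ B :: P2) :=
    List.Sublist.append (List.Sublist.refl _) (List.sublist_cons_self _ _)
  have hL : ∀ v, v ∈ cv L → v ∈ vs B ∨ v ∈ X := fun v hv => mem_union.1 (g6 hv)
  have hX : ∀ v, v ∈ X → v ∈ U ∧ v ∉ cv C := fun v hv => mem_sdiff.1 (g4 hv)
  have hBP : ∀ v, v ∈ vs B → v ∉ cv (P1 ++ P2) := by
    intro v hv hw
    obtain ⟨E, hE, hvE⟩ := mem_cv.1 hw
    have h5' := List.pairwise_append.1 h5
    rcases List.mem_append.1 hE with h | h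
    · exact disjoint_left.1 (h5'.2.2 E h B List.mem_cons_self) hvE hv
    · exact disjoint_left.1 ((List.pairwise_cons.1 h5'.2.1).1 E h) hv hvE
  refine ⟨P1 ++ P2, L ++ C, ?_, ?_, ?_, ?_, ?_, ?_, ?_, ?_, ?_, ?_, ?_⟩
  · rw [List.length_append, List.length_cons] at h1
    rw [List.length_append]
    omega
  · intro E hE
    exact h2 E (hsub.subset hE)
  · exact disjoint_left.2 fun v hv hw => disjoint_left.1 h3 (inP v hv) hw
  · exact disjoint_left.2 fun v hv hw => disjoint_left.1 h4 (inP v hv) hw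
  · exact List.Pairwise.sublist hsub h5
  · intro E hE
    rcases List.mem_append.1 hE with h | h
    · exact g2 E h
    · exact h6 E h
  · refine disjoint_left.2 fun v hv hw => ?_
    rw [cv_append, mem_union] at hv
    rcases hv with hv | hv
    · rcases hL v hv with h | h
      · exact disjoint_left.1 h3 (inB v h) hw
      · exact disjoint_left.1 hWU hw (hX v h).1
    · exact disjoint_left.1 h7 hv hw
  · refine List.pairwise_append.2 ⟨g3, h8, fun D hD E hE => ?_⟩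
    refine disjoint_left.2 fun v hv hw => ?_
    have hvL : v ∈ cv L := mem_cv.2 ⟨D, hD, hv⟩
    have hvC : v ∈ cv C := mem_cv.2 ⟨E, hE, hw⟩
    rcases hL v hvL with h | h
    · exact disjoint_left.1 h9 (inB v h) hvC
    · exact (hX v h).2 hvC
  · refine disjoint_left.2 fun v hv hw => ?_
    rw [cv_append, mem_union] at hw
    rcases hw with hw | hw
    · rcases hL v hw with h | h
      · exact hBP v h hv
      · exact disjoint_left.1 h4 (inP v hv) (hX v h).1
    · exact disjoint_left.1 h9 (inP v hv) hw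
  · rw [List.length_append, g1, h10]
    ring
  · have hs : cv (L ++ C) ∩ U ⊆ X ∪ (cv C ∩ U) := by
      intro v hv
      obtain ⟨hv1, hv2⟩ := mem_inter.1 hv
      rw [cv_append, mem_union] at hv1
      rcases hv1 with h | h
      · rcases hL v h with h | h
        · exact absurd hv2 (disjoint_left.1 h4 (inB v h))
        · exact mem_union_left _ h
      · exact mem_union_right _ (mem_inter.2 ⟨h, hv2⟩)
    have h12 := (card_le_card hs).trans (card_union_le _ _)
    have h13 : 2 * (k - 1) * s * (j + 1) = 2 * (k - 1) * s + 2 * (k - 1) * s * j := by ring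
    omega

/-- one round -/
theorem round {q r t s ℓ b j : ℕ} {H : Finset (Finset V)} {T : Fin q → Set (List V)}
    {W U : Finset V} {γ ξ : ℝ} (hr : 3 ≤ r + 1) (hξ : 0 < ξ) (hn : 0 < Fintype.card V)
    (ht : t = ℓ * s) (hℓ : 0 < ℓ) (hs : 0 < s)
    (hWU : Disjoint W U) (hcard : U.card + W.card + (r + 1) * t * b = Fintype.card V)
    (hW : (W.card : ℝ) ≤ 1 / 200 * Fintype.card V) (hU : ξ * Fintype.card V ≤ (U.card : ℝ))
    (h3 : P3 H (r + 1) T γ) (hγ : γ ≤ 1 / 4 * (ξ / 2) ^ r) (hγ' : γ ≤ 1 / 400)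
    (hp : ({g : Fin (r + 1) → V | (∀ j, g j ∈ U) ∧ OrdIn H (r + 1) T (univ.image g)}.ncard : ℝ) ≤
      1 / 1600 * (ξ / 2) ^ r * (Fintype.card V : ℝ) ^ (r + 1))
    (hj1 : ((r + 1 : ℕ) * t * j : ℝ) ≤ 1 / 50 * Fintype.card V)
    (hj2 : (2 * r * s * j : ℝ) ≤ ξ / 2 * Fintype.card V)
    (hcoa : ∀ (B : Fin (r + 1) → Finset V) (U : Finset V), (∀ j, (B j).card = t) →
        (∀ i j, i ≠ j → Disjoint (B i) (B j)) → (∀ j, Disjoint (B j) U) →
        1 / 20 * (ξ / 2) ^ r * (Fintype.card V : ℝ) ^ r ≤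
          ({f : Fin (r + 1 - 1) → V | (∀ l, f l ∈ U) ∧ ∃ i j, i ≠ j ∧
            1 / (10 * (r + 1 : ℕ)) * (t : ℝ) ≤ ((gn H (r + 1) T f ∩ B i).card : ℝ) ∧
            1 / (10 * (r + 1 : ℕ)) * (t : ℝ) ≤ ((gn H (r + 1) T f ∩ B j).card : ℝ)}.ncard : ℝ) →
        ∃ (i j : Fin (r + 1)) (P P' W W' : Finset V) (C C' : Fin (r + 1) → Finset V), i ≠ j ∧
          P ⊆ B i ∧ P' ⊆ B j ∧ W ⊆ U ∧ W' ⊆ U ∧ Disjoint W W' ∧ P.card = s ∧ P'.card = s ∧
          W.card = (r + 1 - 1) * s ∧ W'.card = (r + 1 - 1) * s ∧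
          Block H (r + 1) T s C ∧ Block H (r + 1) T s C' ∧
          Finset.univ.biUnion C = P ∪ W ∧ Finset.univ.biUnion C' = P' ∪ W')
    (hst : Sta3 H (r + 1) T W U t s ℓ b j) : Sta3 H (r + 1) T W U t s ℓ b (j + 1) := by
  classical
  obtain ⟨P, C, h1, h2, h3', h4, h5, h6, h7, h8, h9, h10, h11⟩ := hst
  have hn' : (0 : ℝ) < Fintype.card V := by exact_mod_cast hn
  have ht0 : 0 < t := by rw [ht]; exact Nat.mul_pos hℓ hs
  -- the free set
  have hU' : ξ / 2 * Fintype.card V ≤ ((U \ cv C).card : ℝ) := by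
    have e1 : (U \ cv C).card + (cv C ∩ U).card = U.card := by
      rw [inter_comm]
      exact card_sdiff_add_card_inter U (cv C)
    have e2 : ((U \ cv C).card : ℝ) + ((cv C ∩ U).card : ℝ) = U.card := by exact_mod_cast e1
    have e3 : ((cv C ∩ U).card : ℝ) ≤ 2 * r * s * j := by
      have : (cv C ∩ U).card ≤ 2 * r * s * j := h11
      exact_mod_cast this
    linarith
  set F := typ H (r + 1) T U (U \ cv C) γ with hF
  have hFc := typ_card (H := H) (T := T) (U := U) (U' := U \ cv C) hξ hn sdiff_subset hU' h3 hγ hp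
  rw [← hF] at hFc
  have hFne : F.Nonempty := by
    rw [← card_pos]
    have : (0 : ℝ) < F.card := lt_of_lt_of_le (by positivity) hFc
    exact_mod_cast this
  have hcP : (cv P).card = (r + 1) * t * P.length := card_cv h2 h5
  -- good neighbours in the unprocessed blocks
  have hlow : ∀ f ∈ F, 47 / 100 * (Fintype.card V : ℝ) ≤
      ((gn H (r + 1) T f ∩ cv P).card : ℝ) := by
    intro f hf
    obtain ⟨_, _, f2, f3⟩ := mem_filter.1 hf
    have e1 : gn H (r + 1) T f ⊆ (gn H (r + 1) T f ∩ cv P) ∪ (gn H (r + 1) T f ∩ U) ∪ W ∪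
        (cv P ∪ U ∪ W)ᶜ := by
      intro v hv
      by_cases a1 : v ∈ cv P
      · exact mem_union_left _ (mem_union_left _ (mem_union_left _ (mem_inter.2 ⟨hv, a1⟩)))
      by_cases a2 : v ∈ U
      · exact mem_union_left _ (mem_union_left _ (mem_union_right _ (mem_inter.2 ⟨hv, a2⟩)))
      by_cases a3 : v ∈ W
      · exact mem_union_left _ (mem_union_right _ a3)
      · refine mem_union_right _ (mem_compl.2 fun h => ?_)
        rcases mem_union.1 h with h | h
        · rcases mem_union.1 h with h | h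
          · exact a1 h
          · exact a2 h
        · exact a3 h
    have e2 : ((cv P ∪ U ∪ W)ᶜ).card = (r + 1) * t * j := by
      have d1 : Disjoint (cv P ∪ U) W := disjoint_union_left.2 ⟨h3', hWU.symm⟩
      have d2 := card_union_of_disjoint d1
      have d3 := card_union_of_disjoint h4
      have d4 : (r + 1) * t * b = (r + 1) * t * P.length + (r + 1) * t * j := by
        rw [← h1]
        ring
      rw [card_compl, d2, d3, hcP]
      omega
    have e3 := card_le_card e1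
    have e4 := card_union_le ((gn H (r + 1) T f ∩ cv P) ∪ (gn H (r + 1) T f ∩ U) ∪ W)
      ((cv P ∪ U ∪ W)ᶜ)
    have e5 := card_union_le ((gn H (r + 1) T f ∩ cv P) ∪ (gn H (r + 1) T f ∩ U)) W
    have e6 := card_union_le (gn H (r + 1) T f ∩ cv P) (gn H (r + 1) T f ∩ U)
    rw [e2] at e4
    have e7 : (gn H (r + 1) T f).card ≤ (gn H (r + 1) T f ∩ cv P).card +
        (gn H (r + 1) T f ∩ U).card + W.card + (r + 1) * t * j := by omega
    have e8 : ((gn H (r + 1) T f).card : ℝ) ≤ ((gn H (r + 1) T f ∩ cv P).card : ℝ) +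
        ((gn H (r + 1) T f ∩ U).card : ℝ) + (W.card : ℝ) + ((r + 1 : ℕ) * t * j : ℝ) := by
      exact_mod_cast e7
    have e9 : γ * (Fintype.card V : ℝ) ≤ 1 / 400 * Fintype.card V :=
      mul_le_mul_of_nonneg_right hγ' hn'.le
    linarith
  have hPN : (((r + 1 : ℕ) : ℝ) * (t : ℝ) * (P.length : ℝ)) ≤ (Fintype.card V : ℝ) := by
    have : (r + 1) * t * P.length ≤ Fintype.card V := by
      rw [← hcP]
      exact card_le_univ _
    exact_mod_cast this
  obtain ⟨B, hBP, hBc⟩ := choose_block (k := r + 1) (t := t) F (fun f => gn H (r + 1) T f)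
    (Fintype.card V : ℝ) hn' hFne P (fun B hB => card_vs (h2 B hB)) hPN hlow
  have hB := h2 B hBP
  have hBU : Disjoint (vs B) (U \ cv C) :=
    disjoint_left.2 fun v hv hw =>
      disjoint_left.1 h4 (mem_cv.2 ⟨B, hBP, hv⟩) (mem_sdiff.1 hw).1
  have hcount : 1 / 20 * (ξ / 2) ^ r * (Fintype.card V : ℝ) ^ r ≤
          ({f : Fin (r + 1 - 1) → V | (∀ l, f l ∈ U \ cv C) ∧ ∃ i j, i ≠ j ∧
            1 / (10 * (r + 1 : ℕ)) * (t : ℝ) ≤ ((gn H (r + 1) T f ∩ B i).card : ℝ) ∧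
            1 / (10 * (r + 1 : ℕ)) * (t : ℝ) ≤
              ((gn H (r + 1) T f ∩ B j).card : ℝ)}.ncard : ℝ) := by
    rw [ncard_filter]
    have e1 : (F.filter fun f => 4 / 10 * (((r + 1 : ℕ) : ℝ) * (t : ℝ)) ≤
        ((gn H (r + 1) T f ∩ vs B).card : ℝ)) ⊆
        univ.filter (fun f : Fin (r + 1 - 1) → V => (∀ l, f l ∈ U \ cv C) ∧ ∃ i j, i ≠ j ∧
            1 / (10 * (r + 1 : ℕ)) * (t : ℝ) ≤ ((gn H (r + 1) T f ∩ B i).card : ℝ) ∧
            1 / (10 * (r + 1 : ℕ)) * (t : ℝ) ≤ ((gn H (r + 1) T f ∩ B j).card : ℝ)) := by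
      intro f hf
      obtain ⟨hf1, hf2⟩ := mem_filter.1 hf
      obtain ⟨_, hf3, _⟩ := mem_filter.1 hf1
      refine mem_filter.2 ⟨mem_univ _, hf3, ?_⟩
      exact two_parts hr ht0 _ B hB.1 hf2
    have e2 : (((F.filter fun f => 4 / 10 * (((r + 1 : ℕ) : ℝ) * (t : ℝ)) ≤
        ((gn H (r + 1) T f ∩ vs B).card : ℝ)).card : ℕ) : ℝ) ≤ _ :=
      Nat.cast_le.2 (card_le_card e1)
    refine le_trans ?_ e2
    refine le_trans ?_ hBc
    linarith
  have hres := hcoa B (U \ cv C) hB.1 hB.2.1 (disj_vs_right.1 hBU) hcount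
  rw [ht] at hB
  obtain ⟨L, X, g1, g2, g3, g4, g5, g6⟩ := step hℓ hB hBU hres
  obtain ⟨P1, P2, rfl⟩ := List.append_of_mem hBP
  exact update hWU P1 P2 C L B X h1 h2 h3' h4 h5 h6 h7 h8 h9 h10 h11 g1 g2 g3 g4 g5 g6

end Pool.Agent.KK.H33
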