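import Pool.Agent.KK.StmtsG

/-!
# Squad KK: row G_MKV (Markov for fixed generic vertices)
-/

set_option autoImplicit false
set_option linter.unusedSectionVars false

namespace Pool.Agent.KK.E.H33

open Pool.Agent.KK Pool.Agent.KK.E

/-- a letter preserving equivalence -/
theorem exists_equiv {κ κ' : Type} [Fintype κ] [Fintype κ'] (c : κ → Bool) (c' : κ' → Bool)
    (h1 : (Finset.univ.filter fun i => c i = true).card =
      (Finset.univ.filter fun i => c' i = true).card)
    (h2 : (Finset.univ.filter fun i => c i = false).card =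
      (Finset.univ.filter fun i => c' i = false).card) :
    ∃ e : κ ≃ κ', ∀ i, c' (e i) = c i := by
  classical
  have e1 : {i // c i = true} ≃ {i // c' i = true} := by
    refine Fintype.equivOfCardEq ?_
    rw [Fintype.card_subtype, Fintype.card_subtype]
    exact h1
  have e2 : {i // ¬ c i = true} ≃ {i // ¬ c' i = true} := by
    refine Fintype.equivOfCardEq ?_
    rw [Fintype.card_subtype, Fintype.card_subtype]
    simp only [Bool.not_eq_true]
    exact h2
  refine ⟨(Equiv.sumCompl fun i => c i = true).symm.trans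
    ((Equiv.sumCongr e1 e2).trans (Equiv.sumCompl fun i => c' i = true)), fun i => ?_⟩
  by_cases hi : c i = true
  · rw [Equiv.trans_apply, Equiv.sumCompl_symm_apply_of_pos (p := fun i => c i = true) hi, Equiv.trans_apply,
      Equiv.sumCongr_apply, Sum.map_inl, Equiv.sumCompl_apply_inl, hi]
    exact (e1 ⟨i, hi⟩).2
  · rw [Equiv.trans_apply, Equiv.sumCompl_symm_apply_of_neg (p := fun i => c i = true) hi, Equiv.trans_apply,
      Equiv.sumCongr_apply, Sum.map_inr, Equiv.sumCompl_apply_inr]
    have h3 := (e2 ⟨i, hi⟩).2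
    rw [Bool.not_eq_true] at h3 hi
    rw [h3, hi]

variable {V : Type} [Fintype V] [DecidableEq V]

/-- re-indexing of an event that depends on the image only -/
theorem reindex (hE02 : StmtE02) {κ κ' : Type} [Fintype κ] [Fintype κ'] (X : Finset V)
    (hX : X.Nonempty) (hX' : (Xᶜ).Nonempty) (c : κ → Bool) (c' : κ' → Bool)
    (h1 : (Finset.univ.filter fun i => c i = true).card =
      (Finset.univ.filter fun i => c' i = true).card)
    (h2 : (Finset.univ.filter fun i => c i = false).card =
      (Finset.univ.filter fun i => c' i = false).card) (Q : Finset V → Prop) :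
    dens (fun i => sd X (c i)) (fun f => Q (Finset.univ.image f)) =
      dens (fun i => sd X (c' i)) (fun f => Q (Finset.univ.image f)) := by
  obtain ⟨e, he⟩ := exists_equiv c c' h1 h2
  have hne : ∀ i, (sd X (c' i)).Nonempty := by
    intro i
    unfold sd
    split_ifs
    · exact hX
    · exact hX'
  have h3 := hE02 V κ' κ (fun i => sd X (c' i)) e hne e.injective
    (fun f => Q (Finset.univ.image f))
  have h4 : (fun i => sd X (c' i)) ∘ e = fun i => sd X (c i) := by
    funext i
    show sd X (c' (e i)) = sd X (c i)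
    rw [he]
  rw [h4] at h3
  rw [← h3]
  congr 1
  funext f
  have h5 : Finset.univ.image (f ∘ e) = Finset.univ.image f := by
    ext v
    simp only [Finset.mem_image, Finset.mem_univ, true_and, Function.comp_apply]
    constructor
    · rintro ⟨i, hi⟩
      exact ⟨e i, hi⟩
    · rintro ⟨i, hi⟩
      exact ⟨e.symm i, by rw [e.apply_symm_apply]; exact hi⟩
  rw [h5]

theorem card_filter_sum {α β : Type} [Fintype α] [Fintype β] (P : α ⊕ β → Prop)
    [DecidablePred P] : (Finset.univ.filter P).card =
      (Finset.univ.filter fun a => P (Sum.inl a)).card +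
        (Finset.univ.filter fun b => P (Sum.inr b)).card := by
  rw [Finset.card_filter, Finset.card_filter, Finset.card_filter, Fintype.sum_sum_type]

/-- the letters of `lets` -/
def lb {a b : ℕ} : Fin a ⊕ Fin b → Bool := Sum.elim (fun _ => true) (fun _ => false)

theorem lets_eq (X : Finset V) (a b : ℕ) : lets X a b = fun i => sd X (lb i) := by
  funext i
  rcases i with i | i
  · rfl
  · rfl

theorem card_lb_true (a b : ℕ) :
    (Finset.univ.filter fun i : Fin a ⊕ Fin b => lb i = true).card = a := by
  rw [card_filter_sum]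
  simp [lb]

theorem card_lb_false (a b : ℕ) :
    (Finset.univ.filter fun i : Fin a ⊕ Fin b => lb i = false).card = b := by
  rw [card_filter_sum]
  simp [lb]

/-- `D` over any index type -/
theorem D_eq (hE02 : StmtE02) {κ : Type} [Fintype κ] (H : Finset (Finset V)) (X M : Finset V)
    (hX : X.Nonempty) (hX' : (Xᶜ).Nonempty) (c : κ → Bool) (a b : ℕ)
    (h1 : (Finset.univ.filter fun i => c i = true).card = a)
    (h2 : (Finset.univ.filter fun i => c i = false).card = b) :
    dens (fun i => sd X (c i)) (fun f => M ∪ Finset.univ.image f ∈ H) = D H X M a b := by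
  unfold D
  rw [lets_eq]
  exact reindex hE02 X hX hX' c lb (by rw [h1, card_lb_true]) (by rw [h2, card_lb_false])
    (fun S => M ∪ S ∈ H)

theorem image_elim {ι κ : Type} [Fintype ι] [Fintype κ] (z : ι → V) (g : κ → V) :
    Finset.univ.image (Sum.elim z g) = Finset.univ.image z ∪ Finset.univ.image g := by
  ext v
  simp only [Finset.mem_image, Finset.mem_univ, true_and, Finset.mem_union]
  constructor
  · rintro ⟨i | i, hi⟩
    · exact Or.inl ⟨i, hi⟩
    · exact Or.inr ⟨i, hi⟩
  · rintro (⟨i, hi⟩ | ⟨i, hi⟩)
    · exact ⟨Sum.inl i, hi⟩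
    · exact ⟨Sum.inr i, hi⟩

/-- **G02** -/
theorem g_mkv (hE01 : StmtE01) (hE02 : StmtE02) (hE03 : StmtE03) : StmtG02 := by
  classical
  intro V _ _ ι _ H X M l a b s t ε hX hX' hε hs ht
  have hne : ∀ c : Bool, (sd X c).Nonempty := by
    intro c
    unfold sd
    split_ifs
    · exact hX
    · exact hX'
  have k1 : (Finset.univ.filter fun i : ι ⊕ (Fin a ⊕ Fin b) => Sum.elim l lb i = true).card =
      (Finset.univ.filter fun i => l i = true).card +
        (Finset.univ.filter fun i : Fin a ⊕ Fin b => lb i = true).card :=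
    card_filter_sum fun i : ι ⊕ (Fin a ⊕ Fin b) => Sum.elim l lb i = true
  have k2 : (Finset.univ.filter fun i : ι ⊕ (Fin a ⊕ Fin b) => Sum.elim l lb i = false).card =
      (Finset.univ.filter fun i => l i = false).card +
        (Finset.univ.filter fun i : Fin a ⊕ Fin b => lb i = false).card :=
    card_filter_sum fun i : ι ⊕ (Fin a ⊕ Fin b) => Sum.elim l lb i = false
  have h1 : D H X M (a + s) (b + t) =
      dens (Sum.elim (fun i => sd X (l i)) (lets X a b))
        (fun f : ι ⊕ (Fin a ⊕ Fin b) → V => M ∪ Finset.univ.image f ∈ H) := by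
    have h2 := D_eq (κ := ι ⊕ (Fin a ⊕ Fin b)) hE02 H X M hX hX' (Sum.elim l lb) (a + s) (b + t)
      (by rw [k1, hs, card_lb_true, add_comm])
      (by rw [k2, ht, card_lb_false, add_comm])
    rw [← h2]
    congr 1
    funext i
    rcases i with i | i
    · rfl
    · rw [lets_eq]
      rfl
  have hnl : ∀ i, (lets X a b i).Nonempty := by
    intro i
    rw [lets_eq]
    exact hne _
  have hc : ∀ i, ((Sum.elim (fun i => sd X (l i)) (lets X a b) :
      ι ⊕ (Fin a ⊕ Fin b) → Finset V) i).Nonempty := by
    rintro (i | i)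
    · exact hne _
    · exact hnl i
  have h3 := (hE01 V (ι ⊕ (Fin a ⊕ Fin b)) (Sum.elim (fun i => sd X (l i)) (lets X a b)) hc).2.2.2.1
    (fun f => M ∪ Finset.univ.image f ∈ H)
  have h4 := (hE03 V ι (Fin a ⊕ Fin b) (fun i => sd X (l i)) (lets X a b)
    (fun i => hne _) hnl).2.1 (fun f => ¬ (M ∪ Finset.univ.image f ∈ H)) ε hε
  have h5 : dens (fun i => sd X (l i)) (fun z => D H X (M ∪ Finset.univ.image z) a b < 1 - ε) ≤
      dens (fun i => sd X (l i)) (fun f => ε < dens (lets X a b)
        (fun g => ¬ (M ∪ Finset.univ.image (Sum.elim f g) ∈ H))) := by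
    refine (hE01 V ι (fun i => sd X (l i)) (fun i => hne _)).2.1 _ _ fun z _ hz => ?_
    have h6 := (hE01 V (Fin a ⊕ Fin b) (lets X a b) hnl).2.2.2.1
      (fun g => (M ∪ Finset.univ.image z) ∪ Finset.univ.image g ∈ H)
    have h7 : (fun g : Fin a ⊕ Fin b → V => ¬ (M ∪ Finset.univ.image (Sum.elim z g) ∈ H)) =
        fun g => ¬ ((M ∪ Finset.univ.image z) ∪ Finset.univ.image g ∈ H) := by
      funext g
      rw [image_elim, Finset.union_assoc]
    rw [h7]
    unfold D at hz
    linarith
  have h8 := mul_le_mul_of_nonneg_left h5 hε.le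
  rw [h1]
  linarith

end Pool.Agent.KK.E.H33
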