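import Pool.Agent.Helper33_KK.G_MKV

/-!
# Squad KK: row G_SWG (single window gadget)
-/

set_option autoImplicit false
set_option linter.unusedSectionVars false

namespace Pool.Agent.KK.E.H33

open Pool.Agent.KK Pool.Agent.KK.E

/-- the letters of a list by position -/
theorem ofFn_getD {k : ℕ} (c : List Bool) (h : c.length = k) :
    List.ofFn (fun i : Fin k => c.getD i false) = c := by
  subst h
  refine List.ext_getElem (by simp) fun i h1 h2 => ?_
  simp only [List.getElem_ofFn]
  rw [List.getD_eq_getElem _ _ h2]

/-- number of positions with letter X -/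
theorem count_letters {k : ℕ} (c : List Bool) (h : c.length = k) (b : Bool) :
    (Finset.univ.filter fun i : Fin k => c.getD i false = b).card = c.count b := by
  have h1 : (Finset.univ.filter fun i : Fin k =>
      List.Vector.get (⟨c, h⟩ : List.Vector Bool k) i = b).card = c.count b :=
    Fin.card_filter_univ_eq_vector_get_eq_count b (⟨c, h⟩ : List.Vector Bool k)
  rw [← h1]
  congr 1
  ext i
  simp only [Finset.mem_filter, Finset.mem_univ, true_and]
  have h2 : List.Vector.get (⟨c, h⟩ : List.Vector Bool k) i = c.getD i false := by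
    subst h
    rw [List.getD_eq_getElem _ _ i.2]
    rfl
  rw [h2]

variable {V : Type} [Fintype V] [DecidableEq V]

theorem count_fixed {k : ℕ} (o : Fin k → Option V) (l : Fin k → Bool) (X M : Finset V) (b : Bool)
    (hM : ∀ v, v ∈ M ↔ ∃ i, o i = some v) (hinj : ∀ i i' v, o i = some v → o i' = some v → i = i')
    (hl : ∀ i v, o i = some v → (v ∈ X ↔ l i = true)) :
    (Finset.univ.filter fun i => o i = none ∧ l i = b).card =
      (Finset.univ.filter fun i => l i = b).card -
        (M.filter fun v => (decide (v ∈ X)) = b).card := by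
  classical
  have hl' : ∀ i v, o i = some v → decide (v ∈ X) = l i := by
    intro i v hi
    have h := hl i v hi
    by_cases hv : v ∈ X
    · rw [decide_eq_true hv, h.1 hv]
    · rw [decide_eq_false hv]
      cases hli : l i
      · rfl
      · exact absurd (h.2 hli) hv
  have h1 : (Finset.univ.filter fun i => l i = b ∧ ¬ o i = none).card =
      (M.filter fun v => (decide (v ∈ X)) = b).card := by
    have e1 : (Finset.univ.filter fun i => l i = b ∧ ¬ o i = none).image o =
        (M.filter fun v => (decide (v ∈ X)) = b).image some := by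
      ext x
      simp only [Finset.mem_image, Finset.mem_filter, Finset.mem_univ, true_and]
      constructor
      · rintro ⟨i, ⟨hi1, hi2⟩, rfl⟩
        obtain ⟨v, hv⟩ := Option.ne_none_iff_exists'.1 hi2
        exact ⟨v, ⟨(hM v).2 ⟨i, hv⟩, by rw [hl' i v hv]; exact hi1⟩, hv.symm⟩
      · rintro ⟨v, ⟨hv1, hv2⟩, rfl⟩
        obtain ⟨i, hi⟩ := (hM v).1 hv1
        exact ⟨i, ⟨by rw [← hl' i v hi]; exact hv2, by rw [hi]; simp⟩, hi⟩
    have e2 : ((Finset.univ.filter fun i => l i = b ∧ ¬ o i = none).image o).card =
        (Finset.univ.filter fun i => l i = b ∧ ¬ o i = none).card := by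
      refine Finset.card_image_of_injOn ?_
      intro i hi j _ hij
      have hi' := (Finset.mem_filter.1 (Finset.mem_coe.1 hi)).2.2
      obtain ⟨v, hv⟩ := Option.ne_none_iff_exists'.1 hi'
      exact hinj i j v hv (by rw [← hij]; exact hv)
    rw [← e2, e1, Finset.card_image_of_injective _ (Option.some_injective V)]
  have h2 : (Finset.univ.filter fun i => l i = b).card =
      (Finset.univ.filter fun i => o i = none ∧ l i = b).card +
        (Finset.univ.filter fun i => l i = b ∧ ¬ o i = none).card := by
    rw [← Finset.card_filter_add_card_filter_not (s := Finset.univ.filter fun i => l i = b)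
      (fun i => o i = none), Finset.filter_filter, Finset.filter_filter]
    congr 2
    ext i
    simp only [Finset.mem_filter, Finset.mem_univ, true_and]
    tauto
  rw [← h1]
  omega

/-- **G03** -/
theorem g_swg (_hE01 : StmtE01) (hE05 : StmtE05) (hG00 : StmtG00) : StmtG03 := by
  classical
  intro V _ _ H X M Z p q B δ h ε η θ c uL uR o hA hC hMst hZB hMZ hcl hcw huL huR hwL hwR hM
    hinj hlet ho0 hol
  obtain ⟨⟨hMX, hMY, hMd⟩, hMmin⟩ := hMst
  have hk : 0 < p + q + 2 := by omega
  have hcard : M.card = (M ∩ X).card + (M \ X).card := by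
    rw [Finset.card_inter_add_card_sdiff]
  have hMk : M.card ≤ p + q + 2 := by omega
  obtain ⟨v0, hv0⟩ := Option.ne_none_iff_exists'.1 ho0
  obtain ⟨v1, hv1⟩ := Option.ne_none_iff_exists'.1 hol
  have hv0M : v0 ∈ M := (hM v0).2 ⟨0, hv0⟩
  have hv1M : v1 ∈ M := (hM v1).2 ⟨_, hv1⟩
  have hM1 : 1 ≤ M.card := Finset.card_pos.2 ⟨v0, hv0M⟩
  -- numbers
  have hkR : (1 : ℝ) ≤ ((p + q + 2 : ℕ) : ℝ) := by exact_mod_cast hk
  have hpos := hC.cst.pos
  have hmono1 : ∀ i, i < p + q + 2 → η i ≤ η (i + 1) := by
    intro i hi
    have h1 := hC.cst.step i hi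
    have h2 := hpos i hi.le
    have h3 : (1 : ℝ) ≤ 8 * ((p + q + 2 : ℕ) : ℝ) * 4 ^ (p + q + 2) * ((B : ℝ) + 1) := by
      have e1 : (1 : ℝ) ≤ 4 ^ (p + q + 2) := one_le_pow₀ (by norm_num)
      have e2 : (0 : ℝ) ≤ B := Nat.cast_nonneg _
      have e3 : (1 : ℝ) ≤ 8 * ((p + q + 2 : ℕ) : ℝ) := by linarith
      have e4 : (1 : ℝ) ≤ 8 * ((p + q + 2 : ℕ) : ℝ) * 4 ^ (p + q + 2) := by nlinarith
      nlinarith
    nlinarith
  have hmono : ∀ i j, i ≤ j → j ≤ p + q + 2 → η i ≤ η j := by
    intro i j hij
    induction j, hij using Nat.le_induction with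
    | base => intro _; exact le_rfl
    | succ j hij ih =>
      intro hj
      exact (ih (by omega)).trans (hmono1 j (by omega))
  have hτ : 0 < η M.card := hpos _ hMk
  have hτ0 : η 0 ≤ η M.card := hmono _ _ (Nat.zero_le _) hMk
  have he₀ : 0 ≤ η (M.card - 1) := (hpos _ (by omega)).le
  have hX : X.Nonempty ∧ (Xᶜ).Nonempty := by
    have h1 := hA.big
    have h2 := hA.pos
    have h3 := hA.small
    have h4 := hA.lo
    have h5 := hA.lo'
    have h6 : (0 : ℝ) < Fintype.card V := by
      rcases lt_or_ge (0 : ℝ) (Fintype.card V : ℝ) with h7 | h7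
      · exact h7
      · exfalso
        have h8 : δ * (Fintype.card V : ℝ) ≤ 0 := mul_nonpos_of_nonneg_of_nonpos h2.le h7
        have h9 : (0 : ℝ) < 100 * ((p + q + 2 : ℕ) : ℝ) ^ 2 * ((B + p + q + 2 : ℕ) : ℝ) := by
          positivity
        linarith
    have h10 : 0 < (1 - δ) * (Fintype.card V : ℝ) / 2 := by
      have : 0 < 1 - δ := by linarith
      positivity
    constructor
    · rw [← Finset.card_pos]
      exact_mod_cast h10.trans_le h4
    · rw [← Finset.card_pos]
      exact_mod_cast h10.trans_le h5
  have hcT : (Finset.univ.filter fun i : Fin (p + q + 2) => c.getD i false = true).card =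
      p + 1 := by
    rw [count_letters c hcl]
    exact hcw
  have hcF : (Finset.univ.filter fun i : Fin (p + q + 2) => c.getD i false = false).card =
      q + 1 := by
    have h1 := Finset.card_filter_add_card_filter_not
      (s := (Finset.univ : Finset (Fin (p + q + 2)))) (fun i => c.getD i false = true)
    rw [hcT, Finset.card_univ, Fintype.card_fin] at h1
    have h2 : (Finset.univ.filter fun i : Fin (p + q + 2) => ¬ c.getD i false = true) =
        Finset.univ.filter fun i : Fin (p + q + 2) => c.getD i false = false := by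
      ext i
      simp
    rw [h2] at h1
    omega
  have hMT : (M.filter fun v => (decide (v ∈ X)) = true) = M ∩ X := by
    ext v
    simp
  have hMF : (M.filter fun v => (decide (v ∈ X)) = false) = M \ X := by
    ext v
    simp
  -- density of the event
  have hdens : dens (bx X (fun i : Fin (p + q + 2) => c.getD i false) o)
      (fun f => Finset.univ.image f ∈ H) =
        D H X M (p + 1 - (M ∩ X).card) (q + 1 - (M \ X).card) := by
    refine hE05 V (Fin (p + q + 2)) H X M (fun i => c.getD i false) o Finset.univ _ _ hX.1 hX.2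
      (fun v => ?_) ?_ ?_
    · rw [hM v]
      simp
    · rw [count_fixed o (fun i => c.getD i false) X M true hM hinj hlet, hcT, hMT]
    · rw [count_fixed o (fun i => c.getD i false) X M false hM hinj hlet, hcF, hMF]
  have hres := hG00 V H X Z p q B (p + q + 2) δ ε (η M.card) (η (M.card - 1)) η c uL uR o
    (fun f => Finset.univ.image f ∈ H) hA hC.epos hC.eone hτ he₀ hcl (by omega) huL huR hinj
    (fun i v hi hvZ => Finset.disjoint_left.1 hMZ ((hM v).2 ⟨i, hi⟩) hvZ)
    (by rw [hdens]; exact hMd.le) (by
      intro a ha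
      rcases lt_trichotomy a (p + q + 1) with hlt | heq | hgt
      · right
        refine ⟨?_, fun i v _ _ hi => hlet i v hi, ?_⟩
        · have h1 : (((uL ++ c ++ uR).drop a).take (p + q + 2)) =
              (((uL ++ c).drop a).take (p + q + 2)) := by
            rw [List.drop_append_of_le_length (by rw [List.length_append]; omega),
              List.take_append_of_le_length (by
                rw [List.length_drop, List.length_append]; omega)]
          rw [h1]
          exact hwL a hlt
        · intro M' hM'
          have hss : M' ⊂ M := by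
            refine (Finset.ssubset_iff_of_subset fun v hv => ?_).2 ⟨v1, hv1M, fun hv => ?_⟩
            · obtain ⟨i, _, _, hi⟩ := (hM' v).1 hv
              exact (hM v).2 ⟨i, hi⟩
            · obtain ⟨i, _, hi2, hi⟩ := (hM' v1).1 hv
              have h2 := hinj i _ v1 hi hv1
              rw [h2, Fin.val_last] at hi2
              omega
          have h3 := Finset.card_lt_card hss
          exact ⟨hMmin M' hss, (Finset.card_le_card (Finset.inter_subset_inter_right hss.1)).trans
            hMX, (Finset.card_le_card (Finset.sdiff_subset_sdiff hss.1 (Finset.Subset.refl X))).trans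
            hMY, hmono _ _ (by omega) (by omega)⟩
      · left
        refine ⟨heq.ge, by omega, fun f _ hf => ?_⟩
        have h1 : (Finset.univ.filter fun i : Fin (p + q + 2) => a ≤ (i : ℕ) + (p + q + 1) ∧
            (i : ℕ) + (p + q + 1) < a + (p + q + 2)) = Finset.univ := by
          ext i
          simp only [Finset.mem_filter, Finset.mem_univ, true_and, iff_true]
          have := i.2
          omega
        rw [h1]
        exact hf
      · right
        refine ⟨?_, fun i v _ _ hi => hlet i v hi, ?_⟩
        · have h1 : (((uL ++ c ++ uR).drop a).take (p + q + 2)) =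
              (((c ++ uR).drop (a - (p + q + 1))).take (p + q + 2)) := by
            rw [List.append_assoc]
            have h2 : a = uL.length + (a - (p + q + 1)) := by omega
            conv_lhs => rw [h2, List.drop_length_add_append]
          rw [h1]
          exact hwR (a - (p + q + 1)) (by omega) (by omega)
        · intro M' hM'
          have hss : M' ⊂ M := by
            refine (Finset.ssubset_iff_of_subset fun v hv => ?_).2 ⟨v0, hv0M, fun hv => ?_⟩
            · obtain ⟨i, _, _, hi⟩ := (hM' v).1 hv
              exact (hM v).2 ⟨i, hi⟩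
            · obtain ⟨i, hi1, _, hi⟩ := (hM' v0).1 hv
              have h2 := hinj i _ v0 hi hv0
              rw [h2] at hi1
              simp at hi1
              omega
          have h3 := Finset.card_lt_card hss
          exact ⟨hMmin M' hss, (Finset.card_le_card (Finset.inter_subset_inter_right hss.1)).trans
            hMX, (Finset.card_le_card (Finset.sdiff_subset_sdiff hss.1 (Finset.Subset.refl X))).trans
            hMY, hmono _ _ (by omega) (by omega)⟩)
    (by
      have h1 := hA.big
      have h2 := hC.delG
      have h3 : (Z.card : ℝ) ≤ B := by exact_mod_cast hZB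
      have hV : (0 : ℝ) ≤ (Fintype.card V : ℝ) := Nat.cast_nonneg _
      have h4 : (B : ℝ) ≤ ((B + p + q + 2 : ℕ) : ℝ) := by push_cast; linarith [
        (Nat.cast_nonneg p : (0 : ℝ) ≤ p), (Nat.cast_nonneg q : (0 : ℝ) ≤ q)]
      have h5 : δ ≤ η M.card := by
        have e1 : ε * η 0 ≤ η 0 := by
          have := hC.eone
          have := (hpos 0 (by omega)).le
          nlinarith
        have e2 : δ ≤ 100 * ((p + q + 2 : ℕ) : ℝ) * δ := by
          have := hA.pos
          nlinarith
        linarith
      rw [div_mul_eq_mul_div, le_div_iff₀ (by positivity)]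
      have h6 : (Z.card : ℝ) * (100 * ((p + q + 2 : ℕ) : ℝ)) ≤
          100 * ((p + q + 2 : ℕ) : ℝ) ^ 2 * ((B + p + q + 2 : ℕ) : ℝ) := by
        have e1 : (Z.card : ℝ) ≤ ((B + p + q + 2 : ℕ) : ℝ) := h3.trans h4
        have e2 : ((p + q + 2 : ℕ) : ℝ) ≤ ((p + q + 2 : ℕ) : ℝ) ^ 2 := by nlinarith
        have e3 : (0 : ℝ) ≤ ((B + p + q + 2 : ℕ) : ℝ) := Nat.cast_nonneg _
        calc (Z.card : ℝ) * (100 * ((p + q + 2 : ℕ) : ℝ))
            ≤ ((B + p + q + 2 : ℕ) : ℝ) * (100 * ((p + q + 2 : ℕ) : ℝ)) :=
              mul_le_mul_of_nonneg_right e1 (by positivity)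
          _ ≤ ((B + p + q + 2 : ℕ) : ℝ) * (100 * ((p + q + 2 : ℕ) : ℝ) ^ 2) :=
              mul_le_mul_of_nonneg_left (by linarith) e3
          _ = _ := by ring
      exact h6.trans (h1.trans (mul_le_mul_of_nonneg_right h5 hV)))
    (by
      have h1 := hC.stepG (M.card - 1) (by omega)
      rw [Nat.sub_add_cancel hM1] at h1
      exact h1)
    (hC.delG.trans (mul_le_mul_of_nonneg_left hτ0 hC.epos.le))
  obtain ⟨f, f1, f2, f3, f4, _, f6⟩ := hres
  refine ⟨List.ofFn f, List.nodup_ofFn.2 f1, ?_, ?_, ?_, f6⟩
  · intro v hv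
    obtain ⟨i, rfl⟩ := (List.mem_ofFn' _ _).1 hv
    exact f2 i
  · intro v hv
    obtain ⟨i, hi⟩ := (hM v).1 hv
    exact (List.mem_ofFn' _ _).2 ⟨i, f3 i v hi⟩
  · rw [List.map_ofFn]
    conv_rhs => rw [← ofFn_getD c hcl]
    congr 1
    funext i
    show decide (f i ∈ X) = c.getD i false
    have key : f i ∈ X ↔ c.getD i false = true := by
      rcases hoi : o i with _ | v
      · exact f4 i hoi
      · rw [f3 i v hoi]
        exact hlet i v hoi
    by_cases hfi : f i ∈ X
    · rw [decide_eq_true hfi, key.1 hfi]
    · rw [decide_eq_false hfi]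
      cases hci : c.getD i false
      · rfl
      · exact absurd (key.2 hci) hfi

end Pool.Agent.KK.E.H33
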